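import Pool.Agent.Work.MP_69fea5_lc.KC.Stmts

/-!
# [69fea5 KC CON] the cylinder of the constraints of a word
-/

set_option autoImplicit false

namespace Pool.Agent.Work.MP_69fea5_lc.KC

theorem CON_pf : S_CON := by
  intro k w n
  ext z
  constructor
  · intro h i a hi
    have hlt : i < w.length := by
      obtain ⟨h1, -⟩ := List.getElem?_eq_some_iff.1 hi
      exact h1
    exact h (n - ((w.length / 2 : ℕ) : ℤ) + i, a)
      (List.mem_filterMap.2 ⟨i, List.mem_range.2 hlt, by rw [hi]; rfl⟩)
  · intro h p hp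
    obtain ⟨i, -, hi⟩ := List.mem_filterMap.1 hp
    obtain ⟨a, ha, rfl⟩ := Option.map_eq_some_iff.1 hi
    exact h i a ha

end Pool.Agent.Work.MP_69fea5_lc.KC
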