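import Pool.Agent.Work.MP_69fea5_lc.KC.Stmts

/-!
# [69fea5 KC CONF] the constraints of a word are primitive recursive
-/

set_option autoImplicit false

namespace Pool.Agent.Work.MP_69fea5_lc.KC

open Pool.Agent.Work.MP_69fea5_lc.HK (Cl ArF)

namespace I_CONF

theorem primrec_con (k : ℕ) : Primrec fun p : AK.Wd k × ℤ => con p.1 p.2 := by
  have h1 : Primrec₂ fun (p : AK.Wd k × ℤ) (i : ℕ) =>
      (p.1[i]?).map fun a => (p.2 - ((p.1.length / 2 : ℕ) : ℤ) + i, a) := by
    refine Primrec.option_map (f := fun q : (AK.Wd k × ℤ) × ℕ => (q.1.1[q.2]? : Option (Fin k)))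
      (g := fun (q : (AK.Wd k × ℤ) × ℕ) (a : Fin k) =>
        (q.1.2 - ((q.1.1.length / 2 : ℕ) : ℤ) + (q.2 : ℤ), a)) ?_ ?_
    · exact Primrec.list_getElem?.comp (Primrec.fst.comp Primrec.fst) Primrec.snd
    · have h2 : Primrec fun r : ((AK.Wd k × ℤ) × ℕ) × Fin k =>
          ((r.1.1.1.length / 2 : ℕ) : ℤ) :=
        HK.primrec_natCast.comp (Primrec.nat_div.comp (Primrec.list_length.comp
          (Primrec.fst.comp (Primrec.fst.comp Primrec.fst))) (Primrec.const 2))
      have h3 : Primrec fun r : ((AK.Wd k × ℤ) × ℕ) × Fin k =>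
          r.1.1.2 - ((r.1.1.1.length / 2 : ℕ) : ℤ) :=
        HK.primrec_int_sub.comp (Primrec.snd.comp (Primrec.fst.comp Primrec.fst)) h2
      have h4 : Primrec fun r : ((AK.Wd k × ℤ) × ℕ) × Fin k =>
          r.1.1.2 - ((r.1.1.1.length / 2 : ℕ) : ℤ) + (r.1.2 : ℤ) :=
        HK.primrec_int_add.comp h3 (HK.primrec_natCast.comp (Primrec.snd.comp Primrec.fst))
      exact h4.pair Primrec.snd
  exact Primrec.listFilterMap (f := fun p : AK.Wd k × ℤ => List.range p.1.length)
    (g := fun (p : AK.Wd k × ℤ) (i : ℕ) =>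
      (p.1[i]?).map fun a => (p.2 - ((p.1.length / 2 : ℕ) : ℤ) + i, a))
    (Primrec.list_range.comp (Primrec.list_length.comp Primrec.fst)) h1

end I_CONF

theorem CONF_pf : S_CONF := fun _ hS k => ArF.of_primrec hS (I_CONF.primrec_con k)

end Pool.Agent.Work.MP_69fea5_lc.KC
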