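import Pool.Agent.Work.MP_69fea5_lc.KC.Stmts

/-!
Block [69fea5 KC], item CYSC: the measures of the cylinders are coded.
-/

set_option autoImplicit false

open Filter Topology MeasureTheory

namespace Pool.Agent.Work.MP_69fea5_lc.KC

open Pool.Agent.Work.MP_69fea5_lc.HK (Cl DU Ar ArF ArR Dat Law LawC act near sc Pt oc Mn mr Sol ext)

theorem CYSC_pf (hCON : S_CON) (hCONF : S_CONF) : S_CYSC := by
  intro S hS k β _ m hm
  have h1 : ArR S fun p : β × HK.C k => mr (m p.1) (HK.cyl p.2) := hm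
  have h2 : ArF S fun p : β × AK.Wd k × ℤ => con p.2.1 p.2.2 :=
    (hCONF S hS k).comp hS (HK.ArF.of_primrec hS Primrec.snd)
  have h3 := h1.sub hS ((HK.ArF.fst hS (α := β) (β := AK.Wd k × ℤ)).pair hS h2)
  refine HK.ArR.congr h3 fun p => ?_
  rw [hCON k p.2.1 p.2.2]

end Pool.Agent.Work.MP_69fea5_lc.KC
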