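import Pool.Agent.Work.MP_69fea5_lc.KC.Stmts

/-!
Block [69fea5 KC], item FFSC: the energy is coded.  helper24.
-/

set_option autoImplicit false

open Filter Topology MeasureTheory

namespace Pool.Agent.Work.MP_69fea5_lc.KC

open Pool.Agent.Work.MP_69fea5_lc.HK (Cl DU Ar ArF ArR Dat Law LawC act near sc Pt oc Mn mr Sol ext)

namespace I_FFSC

/-- the enumeration of the words is primitive recursive -/
theorem wd_primrec (k : ℕ) : Primrec (AK.wd k) := by
  have h : Primrec fun i : ℕ => ((Encodable.decode i : Option (List (Fin k)))).getD [] :=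
    Primrec.option_getD.comp Primrec.decode (Primrec.const [])
  exact h

theorem mr_eq {k : ℕ} (m : AK.PM k) (A : Set (AK.Om k)) : ((m A : NNReal) : ℝ) = mr m A := rfl

theorem mr_nonneg {k : ℕ} (m : AK.PM k) (A : Set (AK.Om k)) : 0 ≤ mr m A := by
  rw [← mr_eq]
  exact NNReal.coe_nonneg _

theorem mr_le_one {k : ℕ} (m : AK.PM k) (A : Set (AK.Om k)) : mr m A ≤ 1 := by
  rw [← mr_eq]
  exact_mod_cast m.apply_le_one A

end I_FFSC

open I_FFSC in
theorem FFSC_pf (hCYSC : S_CYSC) : S_FFSC := by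
  intro S hS k β _ m hm
  have h1 := hCYSC S hS k β m hm
  have h2 : ArR S fun p : β × ℕ => mr (m p.1) (AK.cyl (AK.wd k p.2) 0) :=
    ArR.comp hS h1 (g := fun p : β × ℕ => (p.1, AK.wd k p.2, (0 : ℤ)))
      (Primrec.fst.pair (((wd_primrec k).comp Primrec.snd).pair (Primrec.const 0)))
  have h3 : ArR S fun p : β × ℕ => (1 / 2 : ℝ) ^ p.2 *
      (mr (m p.1) (AK.cyl (AK.wd k p.2) 0) * mr (m p.1) (AK.cyl (AK.wd k p.2) 0)) :=
    ArR.mul hS (ArR.half_pow hS (ArF.snd hS))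
      (ArR.mul hS h2 h2 (fun _ => mr_nonneg _ _) fun _ => mr_nonneg _ _)
      (fun _ => by positivity) fun _ => mul_nonneg (mr_nonneg _ _) (mr_nonneg _ _)
  have h4 := ArR.tsum hS (f := fun (b : β) (i : ℕ) => (1 / 2 : ℝ) ^ i *
      (mr (m b) (AK.cyl (AK.wd k i) 0) * mr (m b) (AK.cyl (AK.wd k i) 0))) h3
    (fun b i => mul_nonneg (by positivity) (mul_nonneg (mr_nonneg _ _) (mr_nonneg _ _)))
    (fun b => Summable.of_nonneg_of_le
      (fun i => mul_nonneg (by positivity) (mul_nonneg (mr_nonneg _ _) (mr_nonneg _ _)))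
      (fun i => by
        have h5 : mr (m b) (AK.cyl (AK.wd k i) 0) * mr (m b) (AK.cyl (AK.wd k i) 0) ≤ 1 :=
          mul_le_one₀ (mr_le_one _ _) (mr_nonneg _ _) (mr_le_one _ _)
        have h6 : (0 : ℝ) ≤ (1 / 2 : ℝ) ^ i := by positivity
        calc (1 / 2 : ℝ) ^ i *
            (mr (m b) (AK.cyl (AK.wd k i) 0) * mr (m b) (AK.cyl (AK.wd k i) 0))
            ≤ (1 / 2 : ℝ) ^ i * 1 := mul_le_mul_of_nonneg_left h5 h6
          _ = (1 / 2 : ℝ) ^ i := mul_one _)
      summable_geometric_two)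
  refine h4.congr fun b => ?_
  unfold AK.FF
  refine tsum_congr fun i => ?_
  rw [mr_eq, sq]

end Pool.Agent.Work.MP_69fea5_lc.KC
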