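import Pool.Agent.Work.MP_69fea5_lc.KC.Stmts
import Pool.Agent.Work.MP_69fea5_lc.HK.InstC

/-!
Items LAWCU, LAWCCU, EXTC of block [69fea5 KC]: laws of the cube.
-/

set_option autoImplicit false
set_option linter.unusedSectionVars false

open Filter Topology MeasureTheory

namespace Pool.Agent.Work.MP_69fea5_lc.KC

open Pool.Agent.Work.MP_69fea5_lc.HK (Cl DU Ar ArF ArR Dat Law LawC act near sc Pt oc Mn mr Sol ext)

section

variable {I : Type} [Primcodable I]

/-- transposition of the cube -/
def sw (v : AK.Cube I) : HK.V I := fun t i => v i t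

/-- transposition, inverse -/
def ws (v : HK.V I) : AK.Cube I := fun i t => v t i

theorem sw_cont : Continuous (sw : AK.Cube I → HK.V I) :=
  continuous_pi fun t => continuous_pi fun i => (continuous_apply t).comp (continuous_apply i)

theorem ws_cont : Continuous (ws : HK.V I → AK.Cube I) :=
  continuous_pi fun i => continuous_pi fun t => (continuous_apply i).comp (continuous_apply t)

theorem near_sw (L : ℕ) (v v' : AK.Cube I) : near L v v' ↔ near L (sw v) (sw v') :=
  ⟨fun h t ht i hi => h i hi t ht, fun h i hi t ht => h t ht i hi⟩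

theorem sw_act (n : ℤ) (v : AK.Cube I) : sw (act n v) = act n (sw v) := rfl

theorem sc_sw (S : Set (Set ℕ)) (hS : Cl S) {β : Type} [Primcodable β] (w : β → AK.Cube I) :
    sc S w ↔ sc S fun b => sw (w b) := by
  constructor
  · intro h
    exact HK.ArR.comp hS (f := fun p : β × I × ℤ => (w p.1 p.2.1 p.2.2 : ℝ)) h
      (g := fun p : β × ℤ × I => (p.1, p.2.2, p.2.1))
      (Primrec.fst.pair ((Primrec.snd.comp Primrec.snd).pair (Primrec.fst.comp Primrec.snd)))
  · intro h
    exact HK.ArR.comp hS (f := fun p : β × ℤ × I => (w p.1 p.2.2 p.2.1 : ℝ)) h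
      (g := fun p : β × I × ℤ => (p.1, p.2.2, p.2.1))
      (Primrec.fst.pair ((Primrec.snd.comp Primrec.snd).pair (Primrec.fst.comp Primrec.snd)))

instance lawCube : Law (AK.Cube I) where
  act_zero x := AK.sh_zero x
  act_add m n x := AK.sh_add m n x
  cont n := AK.sh_cont n
  near_open L := by
    have h := (Law.near_open (α := HK.V I) L).preimage
      (f := fun p : AK.Cube I × AK.Cube I => (sw p.1, sw p.2))
      ((sw_cont.comp continuous_fst).prodMk (sw_cont.comp continuous_snd))
    convert h using 1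
    ext p
    exact near_sw L p.1 p.2
  near_refl L x := (near_sw L _ _).2 (Law.near_refl L _)
  near_symm L x y h := (near_sw L _ _).2 (Law.near_symm L _ _ ((near_sw L _ _).1 h))
  near_tri L x y z h h' := (near_sw L _ _).2
    (Law.near_tri L _ _ _ ((near_sw _ _ _).1 h) ((near_sw _ _ _).1 h'))
  near_mono L L' x y hL h := (near_sw L _ _).2 (Law.near_mono L L' _ _ hL ((near_sw _ _ _).1 h))
  near_lim L p hp := by
    refine (near_sw L _ _).2 (Law.near_lim L (sw p.1, sw p.2) ?_)
    exact map_mem_closure (f := fun p : AK.Cube I × AK.Cube I => (sw p.1, sw p.2))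
      ((sw_cont.comp continuous_fst).prodMk (sw_cont.comp continuous_snd)) hp
      fun q hq => (near_sw _ _ _).1 hq
  near_basis x U hU := by
    have h1 : ws ⁻¹' U ∈ 𝓝 (sw x) := ws_cont.continuousAt.preimage_mem_nhds hU
    obtain ⟨L, hL⟩ := Law.near_basis (sw x) _ h1
    exact ⟨L, fun y hy => hL (sw y) ((near_sw _ _ _).1 hy)⟩

instance lawCCube : LawC (AK.Cube I) where
  sc_comp S β γ _ _ w f hS hw hf := by
    rw [sc_sw S hS] at hw ⊢
    exact LawC.sc_comp S β γ _ f hS hw hf
  sc_act S β _ w hS hw := by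
    rw [sc_sw S hS] at hw ⊢
    exact LawC.sc_act S β _ hS hw
  sc_lim S U β _ w x hS hU hw hx := by
    rw [sc_sw S hS] at hw ⊢
    exact LawC.sc_lim S U β _ _ hS hU hw fun b => (sw_cont.tendsto _).comp (hx b)
  sc_near S β _ w w' hS hw hw' := by
    rw [sc_sw S hS] at hw hw'
    exact (LawC.sc_near S β _ _ hS hw hw').congr fun p => near_sw _ _ _

end

theorem LAWCU_pf : S_LAWCU := fun _ _ => lawCube

theorem LAWCCU_pf : S_LAWCCU := fun _ _ => lawCCube

theorem EXTC_pf : S_EXTC := by
  intro S hS k c hc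
  exact HK.ArF.comp hS (g := c) hc (f := fun p : Unit × ℤ => p.2.toNat)
    ((HK.ArF.snd hS).toNat hS)

end Pool.Agent.Work.MP_69fea5_lc.KC
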