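import Pool.Agent.Work.MP_69fea5_lc.KC.Stmts

/-!
Item KCI of block [69fea5 KC]: the greedy solution in Case I.
-/

set_option autoImplicit false

open Filter Topology MeasureTheory

namespace Pool.Agent.Work.MP_69fea5_lc.KC

open Pool.Agent.Work.MP_69fea5_lc.HK (Cl DU Ar ArF ArR Dat Law LawC act near sc Pt oc Mn mr Sol ext)

namespace I_KCI

variable {k : ℕ}

theorem mem_con {w : AK.Wd k} {n t : ℤ} {a : Fin k} :
    (t, a) ∈ con w n ↔ ∃ i : ℕ, w[i]? = some a ∧ t = n - ((w.length / 2 : ℕ) : ℤ) + i := by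
  simp only [con, List.mem_filterMap, List.mem_range, Option.map_eq_some_iff, Prod.mk.injEq]
  constructor
  · rintro ⟨i, _, a', h1, h2, rfl⟩
    exact ⟨i, h1, h2.symm⟩
  · rintro ⟨i, h1, h2⟩
    refine ⟨i, ?_, a, h1, h2.symm, rfl⟩
    by_contra hc
    rw [List.getElem?_eq_none (not_lt.1 hc)] at h1
    cases h1

theorem mem_con_of (hk : 2 ≤ k) {w : AK.Wd k} {n t : ℤ} {a : Fin k}
    (hne : (AK.cyl w n).Nonempty) (h : AK.cyl w n ⊆ {g | g t = a}) : (t, a) ∈ con w n := by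
  by_contra hnot
  obtain ⟨z, hz⟩ := hne
  have hza : z t = a := h hz
  obtain ⟨b, hb⟩ : ∃ b : Fin k, b ≠ a := by
    by_cases h0 : a = ⟨0, by omega⟩
    · exact ⟨⟨1, by omega⟩, by rw [h0]; simp⟩
    · exact ⟨⟨0, by omega⟩, fun h1 => h0 h1.symm⟩
  have hz' : Function.update z t b ∈ AK.cyl w n := by
    intro i a' hi
    by_cases ht : n - ((w.length / 2 : ℕ) : ℤ) + i = t
    · exfalso
      have h1 : z (n - ((w.length / 2 : ℕ) : ℤ) + i) = a' := hz i a' hi
      rw [ht, hza] at h1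
      exact hnot (mem_con.2 ⟨i, by rw [hi, h1], ht.symm⟩)
    · rw [Function.update_of_ne ht]
      exact hz i a' hi
  have h2 : Function.update z t b t = a := h hz'
  rw [Function.update_self] at h2
  exact hb h2

theorem nonempty_of_pos {m : AK.PM k} {A : Set (AK.Om k)} (h : 0 < mr m A) : A.Nonempty := by
  by_contra hc
  rw [Set.not_nonempty_iff_eq_empty] at hc
  rw [hc] at h
  simp [mr] at h

theorem mr_eq (m : AK.PM k) (A : Set (AK.Om k)) : mr m A = ((m A : NNReal) : ℝ) := rfl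

theorem pos_iff (m : AK.PM k) (w : AK.Wd k) : AK.Pos m w ↔ 0 < mr m (AK.cyl w 0) := by
  rw [mr_eq, NNReal.coe_pos]
  exact Iff.rfl

end I_KCI

open I_KCI in
theorem KCI_pf (hCS : AK.S_CS1) (hCON : S_CON) (hCONF : S_CONF) (hCY : S_CYSC) : S_KCI := by
  classical
  intro S hS k c m hc hm h2
  obtain ⟨Q, r, hQ, hQr, hstep⟩ := hCS k (ext c) m h2
  by_cases hk : 2 ≤ k
  swap
  · -- at most one colour
    refine ⟨{x | 0 < x}, ?_, ?_, r, ?_⟩
    · exact HK.Ar.set (R := fun x => 0 < x) (HK.Ar.prim hS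
        (Primrec.nat_lt.comp (Primrec.const 0) Primrec.id))
    · refine Set.infinite_of_not_bddAbove ?_
      rintro ⟨b, hb⟩
      have := hb (a := b + 1) (Nat.succ_pos b)
      omega
    · have hsub : ∀ a b : Fin k, a = b := fun a b => by
        apply Fin.ext
        have := a.2
        have := b.2
        omega
      exact fun x hx => ⟨hx, hsub _ _, fun y _ _ => hsub _ _⟩
  -- the greedy step
  have hcyl : ∀ (P : AK.Wd k) (z : AK.Om k), z ∈ AK.cyl P 0 ↔ ∀ q ∈ con P 0, z q.1 = q.2 := by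
    intro P z
    rw [← hCON k P 0]
    exact Iff.rfl
  set Gd : AK.Wd k → Prop := fun P => (∀ q ∈ con Q 0, q ∈ con P 0) ∧ 0 < mr m (AK.cyl P 0)
    with hGd
  set R : ℕ × AK.Wd k → ℕ × AK.Wd k → Prop := fun p p' => Gd p.2 → (p.1 < p'.1 ∧
    (∀ q ∈ con p.2 0, ext c (q.1 + p'.1) = q.2) ∧ (∀ q ∈ con p.2 0, q ∈ con p'.2 0) ∧
    ((p'.1 : ℤ), r) ∈ con p'.2 0 ∧ 0 < mr m (AK.cyl p'.2 0)) with hR
  -- definability
  have acon : ArF S fun P : AK.Wd k => con P 0 :=
    HK.ArF.comp hS (g := fun p : AK.Wd k × ℤ => con p.1 p.2) (hCONF S hS k)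
      (f := fun P => (P, (0 : ℤ))) ((HK.ArF.id hS).pair hS (HK.ArF.const hS 0))
  have apos : Ar S fun P : AK.Wd k => 0 < mr m (AK.cyl P 0) := by
    have h1 := hCY S hS k Unit (fun _ => m) hm
    have h3 := HK.Ar.comp hS (β := AK.Wd k) h1 (f := fun P => (((), (P, (0 : ℤ))), (0, 0)))
      (((Primrec.const ()).pair (Primrec.id.pair (Primrec.const 0))).pair (Primrec.const (0, 0)))
    exact h3.congr fun P => by simp
  have aGd : Ar S Gd := by
    refine HK.Ar.and hS ?_ apos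
    refine HK.Ar.ballList hS (R := fun (P : AK.Wd k) (q : ℤ × Fin k) => q ∈ con P 0) ?_
      (HK.ArF.const hS _)
    exact HK.Ar.memList hS (HK.ArF.snd hS) (acon.comp hS (HK.ArF.fst hS))
  have aR : Ar S fun p : (ℕ × AK.Wd k) × (ℕ × AK.Wd k) => R p.1 p.2 := by
    have v1 : ArF S fun p : (ℕ × AK.Wd k) × (ℕ × AK.Wd k) => p.1.1 :=
      HK.ArF.of_primrec hS (Primrec.fst.comp Primrec.fst)
    have v2 : ArF S fun p : (ℕ × AK.Wd k) × (ℕ × AK.Wd k) => p.1.2 :=
      HK.ArF.of_primrec hS (Primrec.snd.comp Primrec.fst)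
    have v3 : ArF S fun p : (ℕ × AK.Wd k) × (ℕ × AK.Wd k) => p.2.1 :=
      HK.ArF.of_primrec hS (Primrec.fst.comp Primrec.snd)
    have v4 : ArF S fun p : (ℕ × AK.Wd k) × (ℕ × AK.Wd k) => p.2.2 :=
      HK.ArF.of_primrec hS (Primrec.snd.comp Primrec.snd)
    refine HK.Ar.imp hS (aGd.sub hS v2) ?_
    refine HK.Ar.and hS (HK.Ar.lt hS v1 v3) (HK.Ar.and hS ?_ (HK.Ar.and hS ?_
      (HK.Ar.and hS ?_ ?_)))
    · refine HK.Ar.ballList hS (R := fun (p : (ℕ × AK.Wd k) × (ℕ × AK.Wd k)) (q : ℤ × Fin k) =>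
        ext c (q.1 + p.2.1) = q.2) ?_ (acon.comp hS v2)
      refine HK.Ar.eq hS ?_ (HK.ArF.of_primrec hS (Primrec.snd.comp Primrec.snd))
      refine HK.ArF.comp hS (g := fun p : Unit × ℤ => ext c p.2) hc
        (f := fun p : ((ℕ × AK.Wd k) × (ℕ × AK.Wd k)) × (ℤ × Fin k) =>
          ((), p.2.1 + (p.1.2.1 : ℤ))) ?_
      refine (HK.ArF.const hS ()).pair hS (HK.ArF.intAdd hS ?_ ?_)
      · exact HK.ArF.of_primrec hS (Primrec.fst.comp Primrec.snd)
      · exact HK.ArF.natCast hS (HK.ArF.of_primrec hS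
          (Primrec.fst.comp (Primrec.snd.comp Primrec.fst)))
    · refine HK.Ar.ballList hS (R := fun (p : (ℕ × AK.Wd k) × (ℕ × AK.Wd k)) (q : ℤ × Fin k) =>
        q ∈ con p.2.2 0) ?_ (acon.comp hS v2)
      exact HK.Ar.memList hS (HK.ArF.snd hS) ((acon.comp hS v4).comp hS (HK.ArF.fst hS))
    · exact HK.Ar.memList hS ((v3.natCast hS).pair hS (HK.ArF.const hS r)) (acon.comp hS v4)
    · exact apos.sub hS v4
  have hRex : ∀ p, ∃ p', R p p' := by
    rintro ⟨x, P⟩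
    by_cases hP : Gd P
    swap
    · exact ⟨(0, []), fun h => absurd h hP⟩
    have hPQ : AK.cyl P 0 ⊆ AK.cyl Q 0 := by
      intro z hz
      rw [hcyl] at hz ⊢
      exact fun q hq => hz q (hP.1 q hq)
    obtain ⟨x', hx', P', h3, h4, h5, h6⟩ := hstep P hPQ ((pos_iff m P).2 hP.2) (x + 1)
    have hpos : 0 < mr m (AK.cyl P' 0) := (pos_iff m P').1 h6
    have hne := nonempty_of_pos hpos
    refine ⟨(x', P'), fun _ => ⟨by omega, ?_, ?_, ?_, hpos⟩⟩
    · rw [hcyl] at h3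
      exact fun q hq => h3 q hq
    · rintro ⟨t, a⟩ hq
      refine mem_con_of hk hne fun z hz => ?_
      exact (hcyl P z).1 (h4 hz) _ hq
    · exact mem_con_of hk hne h5
  obtain ⟨G, aG, hG⟩ := HK.Ar.choose hS aR hRex
  obtain ⟨f, hf0, hfs⟩ := HK.exists_rec (α := Unit) (fun _ => ((0 : ℕ), Q)) fun _ _ p => G p
  have af : ArF S fun p : Unit × ℕ => f p.1 p.2 :=
    HK.ArF.rec hS (b := fun _ => ((0 : ℕ), Q)) (HK.ArF.const hS _) (G := fun _ _ p => G p)
      (aG.comp hS (HK.ArF.of_primrec hS (Primrec.snd.comp Primrec.snd))) hf0 hfs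
  set s : ℕ → ℕ × AK.Wd k := f () with hs
  have as : ArF S s := af.comp hS (f := fun n : ℕ => ((), n)) (HK.ArF.of_primrec hS
    ((Primrec.const ()).pair Primrec.id))
  have hs0 : s 0 = (0, Q) := hf0 ()
  have hs1 : ∀ n, s (n + 1) = G (s n) := hfs ()
  have hgood : ∀ n, Gd (s n).2 := by
    intro n
    induction n with
    | zero => rw [hs0]; exact ⟨fun q hq => hq, (pos_iff m Q).1 hQ⟩
    | succ n ih =>
      have h3 := hG (s n) ih
      rw [← hs1] at h3
      exact ⟨fun q hq => h3.2.2.1 q (ih.1 q hq), h3.2.2.2.2⟩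
  have hRn : ∀ n, (s n).1 < (s (n + 1)).1 ∧
      (∀ q ∈ con (s n).2 0, ext c (q.1 + (s (n + 1)).1) = q.2) ∧
      (∀ q ∈ con (s n).2 0, q ∈ con (s (n + 1)).2 0) ∧
      (((s (n + 1)).1 : ℤ), r) ∈ con (s (n + 1)).2 0 := by
    intro n
    have h3 := hG (s n) (hgood n)
    rw [← hs1] at h3
    exact ⟨h3.1, h3.2.1, h3.2.2.1, h3.2.2.2.1⟩
  have hmono : StrictMono fun n => (s n).1 := strictMono_nat_of_lt_succ fun n => (hRn n).1
  have hcon : ∀ i j, i ≤ j → ∀ q ∈ con (s i).2 0, q ∈ con (s j).2 0 := by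
    intro i j hij
    induction j, hij using Nat.le_induction with
    | base => exact fun q hq => hq
    | succ j _ ih => exact fun q hq => (hRn j).2.2.1 q (ih q hq)
  refine ⟨{x | ∃ n, (s (n + 1)).1 = x}, ?_, ?_, r, ?_⟩
  · refine HK.Ar.set (R := fun x => ∃ n, (s (n + 1)).1 = x) ?_
    refine HK.Ar.ex hS (R := fun x n => (s (n + 1)).1 = x) ?_
    refine HK.Ar.eq hS ?_ (HK.ArF.fst hS)
    exact HK.ArF.map hS Primrec.fst (as.comp hS ((HK.ArF.snd hS).succ hS))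
  · refine Set.infinite_of_injective_forall_mem (f := fun n => (s (n + 1)).1) ?_
      fun n => ⟨n, rfl⟩
    intro a b hab
    have := hmono.injective hab
    omega
  · rintro x ⟨n, rfl⟩
    have hx0 : 0 < (s (n + 1)).1 := (Nat.zero_le _).trans_lt (hRn n).1
    refine ⟨hx0, ?_, ?_⟩
    · -- the colour of `x`
      have h3 : AK.sh ((s (n + 1)).1 : ℤ) (ext c) ∈ AK.cyl Q 0 := by
        rw [hcyl]
        intro q hq
        exact (hRn n).2.1 q ((hgood n).1 q hq)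
      have h4 : ext c (0 + ((s (n + 1)).1 : ℤ)) = r := hQr h3
      simpa [ext] using h4
    · rintro y ⟨j, rfl⟩ hlt
      have hjn : j + 1 ≤ n := by
        by_contra hc
        have : (s (n + 1)).1 ≤ (s (j + 1)).1 := hmono.monotone (by omega)
        omega
      have h3 := (hRn n).2.1 _ (hcon (j + 1) n hjn _ (hRn j).2.2.2)
      have h4 : ext c ((((s (j + 1)).1 : ℕ) : ℤ) + ((s (n + 1)).1 : ℕ)) = r := h3
      have h5 : ((((s (j + 1)).1 : ℕ) : ℤ) + ((s (n + 1)).1 : ℕ)).toNat =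
          (s (n + 1)).1 + (s (j + 1)).1 := by omega
      unfold ext at h4
      rwa [h5] at h4

end Pool.Agent.Work.MP_69fea5_lc.KC
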