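import Pool.Agent.Work.MP_69fea5_lc.KC.Stmts
import Pool.Agent.Work.MP_69fea5_lc.HK.InstPM

/-!
Block [69fea5 KC], item KAPF: the kernels as limits of the admissible windows.
-/

set_option autoImplicit false

open Filter Topology MeasureTheory

namespace Pool.Agent.Work.MP_69fea5_lc.KC

open Pool.Agent.Work.MP_69fea5_lc.HK (Cl DU Ar ArF ArR Dat Law LawC act near sc Pt oc Mn mr Sol ext)

namespace I_KAPF

variable {k : ℕ}

theorem wd_eq_iff (L : ℕ) (a b : AK.Om k) : HK.wd L a = HK.wd L b ↔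
    ∀ t : ℤ, |t| ≤ (L : ℤ) → a t = b t := by
  unfold HK.wd
  rw [List.map_inj_left]
  constructor
  · intro h t ht
    rw [abs_le] at ht
    have h1 := h (t + L).toNat (List.mem_range.2 (by omega))
    rwa [Int.toNat_of_nonneg (by omega), add_sub_cancel_right] at h1
  · intro h i hi
    rw [List.mem_range] at hi
    exact h _ (by rw [abs_le]; omega)

theorem mem_cyl_wc (z g : AK.Om k) (x : ℤ) (L : ℕ) : g ∈ HK.cyl (HK.wc z x L) ↔
    ∀ t : ℤ, |t| ≤ (L : ℤ) → g (x + t) = z t := by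
  unfold HK.cyl HK.wc
  simp only [Set.mem_ofPred_eq, List.mem_map, List.mem_range]
  constructor
  · intro h t ht
    rw [abs_le] at ht
    have h1 := h _ ⟨(t + L).toNat, by omega, rfl⟩
    rw [Int.toNat_of_nonneg (by omega), add_sub_cancel_right] at h1
    exact h1
  · rintro h p ⟨i, hi, rfl⟩
    exact h _ (by rw [abs_le]; omega)

theorem mem_cyl_append {P Q : HK.C k} {g : AK.Om k} :
    g ∈ HK.cyl (P ++ Q) ↔ g ∈ HK.cyl P ∧ g ∈ HK.cyl Q := by
  unfold HK.cyl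
  simp only [Set.mem_ofPred_eq, List.mem_append]
  exact ⟨fun h => ⟨fun p hp => h p (Or.inl hp), fun p hp => h p (Or.inr hp)⟩,
    fun h p hp => hp.elim (h.1 p) (h.2 p)⟩

theorem isClopen_wd (R : List (Fin k) → Prop) (L : ℕ) :
    IsClopen {u : AK.Om k | R (HK.wd L u)} := by
  have h : ∀ R : List (Fin k) → Prop, IsOpen {u : AK.Om k | R (HK.wd L u)} := by
    intro R
    rw [isOpen_iff_mem_nhds]
    intro u hu
    filter_upwards [HK.near_mem_nhds L (show HK.X k from u)] with y hy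
    show R (HK.wd L y)
    rw [(wd_eq_iff L y u).2 hy]
    exact hu
  exact ⟨⟨h fun w => ¬ R w⟩, h R⟩

theorem pos_iff (m : AK.PM k) (B : Set (AK.Om k)) : 0 < mr m B ↔ 0 < m B := by
  rw [HK.mr_eq]
  exact NNReal.coe_pos

theorem mr_mono (m : AK.PM k) {A B : Set (AK.Om k)} (h : A ⊆ B) : mr m A ≤ mr m B :=
  measureReal_mono h

end I_KAPF

open I_KAPF in
/-- [KAPF] the kernels as limits. -/
theorem KAPF_pf (hSUP : AK.S_SUP) (hSTG : AK.S_STG) (hCON : S_CON) : S_KAPF := by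
  intro k c m0 D hs P z hz Q hQ
  obtain ⟨-, -, -, -, -, hmeet, -, -⟩ := hSUP k m0
  obtain ⟨-, -, hone, -, -⟩ := hSTG k c m0 D hs
  have hm0 : m0 ∈ AK.orb m0 := subset_closure ⟨0, AK.sh_zero m0⟩
  have h1 := hone m0 hm0
  -- the sets `E L`
  set E : ℕ → Set (AK.Om k) := fun L => {u | adm c m0 P z L (HK.wd L u)} with hE
  have hEc : ∀ L, IsClopen (E L) := fun L => isClopen_wd _ L
  have hopen : ∀ (x : ℤ) (L : ℕ), IsOpen (HK.cyl (con P 0 ++ HK.wc z x L)) :=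
    fun x L => (HK.isClopen_cyl _).isOpen
  have hmem : ∀ (g : AK.Om k) (x : ℤ) (L : ℕ), g ∈ HK.cyl (con P 0 ++ HK.wc z x L) ↔
      g ∈ AK.cyl P 0 ∧ ∀ t : ℤ, |t| ≤ (L : ℤ) → g (x + t) = z t := by
    intro g x L
    rw [mem_cyl_append, hCON k P 0, mem_cyl_wc]
  have hanti : Antitone E := by
    intro L L' hL u hu N
    obtain ⟨x, hx, hw, hn, hp⟩ := hu N
    refine ⟨x, hx, ?_, ?_, ?_⟩
    · rw [wd_eq_iff] at hw ⊢
      exact fun t ht => hw t (ht.trans (by exact_mod_cast hL))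
    · exact Law.near_mono (α := HK.PM k) L L' _ _ hL hn
    · refine hp.trans_le (mr_mono m0 fun g hg => ?_)
      rw [hmem] at hg ⊢
      exact ⟨hg.1, fun t ht => hg.2 t (ht.trans (by exact_mod_cast hL))⟩
  -- (1)
  have hsub1 : ∀ L, AK.AP c m0 P z m0 ⊆ E L := by
    rintro L u ⟨-, hu⟩ N
    have hU := HK.near_mem_nhds L (show HK.X k × HK.X k × HK.PM k from (u, z, m0))
    obtain ⟨x, hx, g, ⟨hgP, hgs⟩, h2, h3, h4⟩ := hu _ hU N
    refine ⟨x, hx, (wd_eq_iff L _ _).2 h2, h4, ?_⟩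
    rw [pos_iff]
    refine hgs _ (hopen x L) ((hmem g x L).2 ⟨hgP, fun t ht => ?_⟩)
    have h5 : g (t + x) = z t := h3 t ht
    rwa [add_comm] at h5
  -- (2)
  have hsub2 : ∀ u, (u, m0) ∈ AK.MM m0 → (∀ L, u ∈ E L) → u ∈ AK.AP c m0 P z m0 := by
    intro u hu hall
    refine ⟨hu, fun U hU N => ?_⟩
    obtain ⟨L, hL⟩ := Law.near_basis (show HK.X k × HK.X k × HK.PM k from (u, z, m0)) U hU
    obtain ⟨x, hx, hw, hn, hp⟩ := hall L N
    obtain ⟨g, hg, hgs⟩ := hmeet _ (hopen x L) ((pos_iff _ _).1 hp)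
    rw [hmem] at hg
    refine ⟨x, hx, g, ⟨hg.1, hgs⟩, hL _ ⟨?_, ?_, ?_⟩⟩
    · intro t ht
      exact ((wd_eq_iff L _ _).1 hw t ht).symm
    · intro t ht
      have h5 := hg.2 t ht
      rw [add_comm] at h5
      exact h5.symm
    · exact Law.near_symm (α := HK.PM k) L _ _ hn
  -- the measures
  have hae : ∀ᵐ u ∂(m0 : Measure (AK.Om k)), (u, m0) ∈ AK.MM m0 := by
    have hcl : IsClosed {u : AK.Om k | (u, m0) ∈ AK.MM m0} :=
      (isClosed_closure (s := {p | ∃ n : ℤ, ∃ z ∈ AK.supp m0,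
        p = (AK.sh n z, AK.sh n m0)})).preimage (continuous_id.prodMk continuous_const)
    have h2 : (m0 : Measure (AK.Om k)) {u : AK.Om k | (u, m0) ∈ AK.MM m0} = 1 := by
      rw [← ProbabilityMeasure.ennreal_coeFn_eq_coeFn_toMeasure, h1, ENNReal.coe_one]
    exact (prob_compl_eq_zero_iff hcl.measurableSet).2 h2
  have heq : mr m0 (Q ∩ AK.AP c m0 P z m0) = mr m0 (⋂ L, Q ∩ E L) := by
    unfold HK.mr
    refine measureReal_congr ?_
    filter_upwards [hae] with u hu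
    apply propext
    show u ∈ Q ∩ AK.AP c m0 P z m0 ↔ u ∈ ⋂ L, Q ∩ E L
    simp only [Set.mem_inter_iff, Set.mem_iInter]
    constructor
    · rintro ⟨ha, hb⟩ L
      exact ⟨ha, hsub1 L hb⟩
    · intro h
      exact ⟨(h 0).1, hsub2 u hu fun L => (h L).2⟩
  rw [heq]
  have hanti' : Antitone fun L => Q ∩ E L := fun L L' hL =>
    Set.inter_subset_inter_right Q (hanti hL)
  have hlim : Tendsto (fun L => mr m0 (Q ∩ E L)) atTop (𝓝 (mr m0 (⋂ L, Q ∩ E L))) := by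
    have h2 := tendsto_measure_iInter_atTop (μ := (m0 : Measure (AK.Om k)))
      (s := fun L => Q ∩ E L)
      (fun L => (hQ.isOpen.measurableSet.inter (hEc L).isOpen.measurableSet).nullMeasurableSet)
      hanti' ⟨0, measure_ne_top _ _⟩
    exact (ENNReal.tendsto_toReal (measure_ne_top _ _)).comp h2
  have hbdd : BddBelow (Set.range fun L => mr m0 (Q ∩ E L)) :=
    ⟨0, by rintro _ ⟨L, rfl⟩; exact HK.mr_nonneg _ _⟩
  exact tendsto_nhds_unique hlim
    (tendsto_atTop_ciInf (fun L L' hL => mr_mono m0 (hanti' hL)) hbdd)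

end Pool.Agent.Work.MP_69fea5_lc.KC
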