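import Pool.Agent.Work.MP_69fea5_lc.KC.Stmts
import Pool.Agent.Work.MP_69fea5_lc.HK.I_MEASW

/-!
Block [69fea5 KC], item KTH: the base point of the isometric extension is coded.
-/

set_option autoImplicit false

open Filter Topology MeasureTheory

namespace Pool.Agent.Work.MP_69fea5_lc.KC

open Pool.Agent.Work.MP_69fea5_lc.HK (Cl DU Ar ArF ArR Dat Law LawC act near sc Pt oc Mn mr Sol ext)

namespace I_KTH

variable {S : Set (Set ℕ)}

/-- relations on sums -/
theorem Ar_sum (hS : Cl S) {A B G : Type} [Primcodable A] [Primcodable B] [Primcodable G]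
    {R : (A ⊕ B) × G → Prop} (h1 : Ar S fun p : A × G => R (.inl p.1, p.2))
    (h2 : Ar S fun p : B × G => R (.inr p.1, p.2)) : Ar S R := by
  have e1 : Ar S fun q : ((A ⊕ B) × G) × A => q.1.1 = Sum.inl q.2 ∧ R (.inl q.2, q.1.2) := by
    refine Ar.and hS ?_ ?_
    · exact Ar.eq hS (ArF.of_primrec hS (Primrec.fst.comp Primrec.fst))
        (ArF.of_primrec hS (Primrec.sumInl.comp Primrec.snd))
    · exact Ar.comp hS h1 (f := fun q : ((A ⊕ B) × G) × A => (q.2, q.1.2))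
        (Primrec.snd.pair (Primrec.snd.comp Primrec.fst))
  have e2 : Ar S fun q : ((A ⊕ B) × G) × B => q.1.1 = Sum.inr q.2 ∧ R (.inr q.2, q.1.2) := by
    refine Ar.and hS ?_ ?_
    · exact Ar.eq hS (ArF.of_primrec hS (Primrec.fst.comp Primrec.fst))
        (ArF.of_primrec hS (Primrec.sumInr.comp Primrec.snd))
    · exact Ar.comp hS h2 (f := fun q : ((A ⊕ B) × G) × B => (q.2, q.1.2))
        (Primrec.snd.pair (Primrec.snd.comp Primrec.fst))
  refine (Ar.or hS (Ar.ex hS (R := fun (p : (A ⊕ B) × G) a => p.1 = Sum.inl a ∧ R (.inl a, p.2)) e1)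
    (Ar.ex hS (R := fun (p : (A ⊕ B) × G) b => p.1 = Sum.inr b ∧ R (.inr b, p.2)) e2)).congr ?_
  rintro ⟨a | b, g⟩
  · constructor
    · intro h
      exact Or.inl ⟨a, rfl, h⟩
    · rintro (⟨a', h, h'⟩ | ⟨b', h, h'⟩)
      · cases h
        exact h'
      · cases h
  · constructor
    · intro h
      exact Or.inr ⟨b, rfl, h⟩
    · rintro (⟨a', h, h'⟩ | ⟨b', h, h'⟩)
      · cases h
      · cases h
        exact h'

/-- real functions on sums -/
theorem ArR_sum (hS : Cl S) {A B G : Type} [Primcodable A] [Primcodable B] [Primcodable G]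
    {f : (A ⊕ B) × G → ℝ} (h1 : ArR S fun p : A × G => f (.inl p.1, p.2))
    (h2 : ArR S fun p : B × G => f (.inr p.1, p.2)) : ArR S f := by
  have key : Ar S fun p : (A ⊕ B) × (G × ℕ × ℕ) =>
      (p.2.2.1 : ℝ) < f (p.1, p.2.1) * (p.2.2.2 + 1) := by
    refine Ar_sum hS ?_ ?_
    · exact Ar.comp hS h1 (f := fun p : A × (G × ℕ × ℕ) => ((p.1, p.2.1), p.2.2))
        ((Primrec.fst.pair (Primrec.fst.comp Primrec.snd)).pair (Primrec.snd.comp Primrec.snd))
    · exact Ar.comp hS h2 (f := fun p : B × (G × ℕ × ℕ) => ((p.1, p.2.1), p.2.2))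
        ((Primrec.fst.pair (Primrec.fst.comp Primrec.snd)).pair (Primrec.snd.comp Primrec.snd))
  exact Ar.comp hS key (f := fun p : ((A ⊕ B) × G) × ℕ × ℕ => (p.1.1, (p.1.2, p.2)))
    ((Primrec.fst.comp Primrec.fst).pair ((Primrec.snd.comp Primrec.fst).pair Primrec.snd))

/-- constant families -/
theorem sc_const (hS : Cl S) {k : ℕ} {m0 : AK.PM k} (h : Pt S m0) {β : Type} [Primcodable β] :
    sc S fun _ : β => m0 :=
  ArR.comp hS (f := fun p : Unit × HK.C k => mr m0 (HK.cyl p.2)) h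
    (g := fun p : β × HK.C k => ((), p.2)) ((Primrec.const ()).pair Primrec.snd)

theorem toI_eq {k : ℕ} (m : AK.PM k) (A : Set (AK.Om k)) : (AK.toI m A : ℝ) = mr m A := rfl

/-- substitution into a function of words, integers and depths -/
theorem ArR_aux (hS : Cl S) {W Z K : Type} [Primcodable W] [Primcodable Z] [Primcodable K]
    (F : (W × ℕ) × ℕ → K → ℝ) (hF : ArR S fun p : (W × ℕ) × ℕ × K => F (p.1, p.2.1) p.2.2)
    (cn : W → Z → K) (hc : ArF S fun p : W × Z => cn p.1 p.2) :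
    ArR S fun p : ((W × W) × Z) × ℕ => F ((p.1.1.1, p.2), p.2) (cn p.1.1.2 p.1.2) := by
  have h5 : ArF S fun p : ((W × W) × Z) × ℕ =>
      (((p.1.1.1, p.2), p.2, cn p.1.1.2 p.1.2) : (W × ℕ) × ℕ × K) := by
    refine ArF.pair hS ?_ (ArF.pair hS (ArF.of_primrec hS Primrec.snd) ?_)
    · exact ArF.of_primrec hS ((Primrec.fst.comp (Primrec.fst.comp Primrec.fst)).pair
        Primrec.snd)
    · exact ArF.comp hS hc (f := fun p : ((W × W) × Z) × ℕ => (p.1.1.2, p.1.2))
        (ArF.of_primrec hS ((Primrec.snd.comp (Primrec.fst.comp Primrec.fst)).pair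
          (Primrec.snd.comp Primrec.fst)))
  exact ArR.sub' hS (f := fun p : (W × ℕ) × ℕ × K => F (p.1, p.2.1) p.2.2) hF h5

end I_KTH

open I_KTH in
theorem KTH_pf (hKAPF : S_KAPF) (hADM : S_ADM) (hCYSC : S_CYSC) (hCON : S_CON) (hCONF : S_CONF)
    (hCYL : AK.S_CYL) : S_KTH := by
  intro S hS k c m0 D hst hc hm z hz hzm
  have key : ArR S fun p : AK.Ix k × ℤ => (AK.Th c m0 (z, m0) p.1 p.2 : ℝ) := by
    refine ArR_sum hS ?_ ?_
    · have h1 := hCYSC S hS k Unit (fun _ => m0) hm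
      exact ArR.comp hS h1 (g := fun p : AK.Wd k × ℤ => ((), p)) ((Primrec.const ()).pair Primrec.id)
    · -- the limit formula
      have h2 : ∀ p : (AK.Wd k × AK.Wd k) × ℤ,
          (AK.Th c m0 (z, m0) (.inr p.1) p.2 : ℝ) =
            ⨅ L : ℕ, mr m0 (HK.cyl (con p.1.2 p.2) ∩
              {u | adm c m0 p.1.1 z L (HK.wd L u)}) := by
        intro p
        have h3 := hKAPF k c m0 D hst p.1.1 z hzm (AK.cyl p.1.2 p.2) ((hCYL k).1 _ _)
        rw [hCON k p.1.2 p.2]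
        exact h3
      refine ArR.congr (f := fun p : (AK.Wd k × AK.Wd k) × ℤ => ⨅ L : ℕ,
        mr m0 (HK.cyl (con p.1.2 p.2) ∩ {u | adm c m0 p.1.1 z L (HK.wd L u)})) ?_ h2
      refine ArR.iInf hS ?_ (fun _ _ => measureReal_nonneg)
      have h4 := HK.MEASW_pf S hS k (AK.Wd k × ℕ) (fun _ => m0)
        (fun b w => adm c m0 b.1 z b.2 w) (sc_const hS hm) (hADM S hS k c m0 z hc hm hz)
      exact ArR_aux hS (fun b K => mr m0 (HK.cyl K ∩ {u | adm c m0 b.1.1 z b.1.2 (HK.wd b.2 u)}))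
        h4 con (hCONF S hS k)
  exact ArR.comp hS key (g := fun p : Unit × AK.Ix k × ℤ => p.2) Primrec.snd

end Pool.Agent.Work.MP_69fea5_lc.KC
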