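import Pool.Agent.Work.MP_69fea5_lc.KC.Stmts

/-!
Block [69fea5 KC], item KAA: a coded measure of the energy set.
-/

set_option autoImplicit false

open Filter Topology MeasureTheory

namespace Pool.Agent.Work.MP_69fea5_lc.KC

open Pool.Agent.Work.MP_69fea5_lc.HK (Cl DU Ar ArF ArR Dat Law LawC act near sc Pt oc Mn mr)

namespace I_KAA

theorem abs_le_natAbs (t : ℤ) (L : ℕ) : |t| ≤ (L : ℤ) ↔ t.natAbs ≤ L := by
  rw [Int.abs_eq_natAbs]
  exact Int.ofNat_le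

theorem FF_nonneg {k : ℕ} (m : AK.PM k) : 0 ≤ AK.FF m := by
  unfold AK.FF
  exact tsum_nonneg fun i => by positivity

variable {S : Set (Set ℕ)} {k : ℕ} {I : Type} [Primcodable I]

/-- the averages indexed by pairs -/
noncomputable def mx (z : AK.Om k) (p : ℤ × List ℤ) : AK.PM k := AK.mix p.1 p.2 z

/-- all shifts of the pair are close returns -/
def Good (v : AK.Cube I) (L : ℕ) (p : ℤ × List ℤ) : Prop :=
  ∀ n ∈ p.1 :: p.2, near L (AK.sh n v) v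

/-- almost optimal pairs -/
def Opt (z : AK.Om k) (v : AK.Cube I) (L : ℕ) (p : ℤ × List ℤ) : Prop :=
  Good v L p ∧ ∀ q : ℤ × List ℤ, Good v L q → ∀ j : ℤ, j.natAbs ≤ L → ∃ j' : ℤ, j'.natAbs ≤ L ∧
    AK.FF (AK.sh j (mx z p)) ≤ AK.FF (AK.sh j' (mx z q)) + 1 / ((L : ℝ) + 1)

theorem good_ar (hS : Cl S) [LawC (AK.Cube I)] {v : AK.Cube I} (hv : Pt S v) :
    Ar S fun p : ℕ × (ℤ × List ℤ) => Good v p.1 p.2 := by
  have h1 : sc S (fun p : Unit × ℤ => act p.2 v) :=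
    LawC.sc_act S Unit (fun _ => v) hS hv
  have h2 : sc S (fun n : ℤ => act n v) :=
    LawC.sc_comp S (Unit × ℤ) ℤ (fun p : Unit × ℤ => act p.2 v) (fun n => ((), n)) hS h1
      (ArF.of_primrec hS ((Primrec.const ()).pair Primrec.id))
  have h3 : sc S (fun _ : ℤ => v) :=
    LawC.sc_comp S Unit ℤ (fun _ : Unit => v) (fun _ => ()) hS hv
      (ArF.of_primrec hS (Primrec.const ()))
  have h4 : Ar S (fun p : ℕ × ℤ => near p.1 (act p.2 v) v) :=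
    LawC.sc_near S ℤ (fun n : ℤ => act n v) (fun _ => v) hS h2 h3
  refine Ar.ballList hS (R := fun (p : ℕ × (ℤ × List ℤ)) (n : ℤ) => near p.1 (AK.sh n v) v)
    (g := fun p : ℕ × (ℤ × List ℤ) => p.2.1 :: p.2.2) ?_ ?_
  · exact Ar.comp hS h4 (f := fun q : (ℕ × (ℤ × List ℤ)) × ℤ => (q.1.1, q.2))
      ((Primrec.fst.comp Primrec.fst).pair Primrec.snd)
  · exact ArF.of_primrec hS (Primrec.list_cons.comp (Primrec.fst.comp Primrec.snd)
      (Primrec.snd.comp Primrec.snd))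

theorem en_arr (hMXSC : S_MXSC) (hFFSC : S_FFSC) (hS : Cl S) [LawC (AK.PM k)] {z : AK.Om k}
    (hz : Pt S z) : ArR S fun p : (ℤ × List ℤ) × ℤ => AK.FF (AK.sh p.2 (mx z p.1)) := by
  have h1 : sc S (mx z) := hMXSC S hS k z hz
  have h2 : sc S (fun p : (ℤ × List ℤ) × ℤ => act p.2 (mx z p.1)) :=
    LawC.sc_act S (ℤ × List ℤ) (mx z) hS h1
  exact hFFSC S hS k _ _ h2

theorem opt_ar (hMXSC : S_MXSC) (hFFSC : S_FFSC) (hS : Cl S) [LawC (AK.PM k)]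
    [LawC (AK.Cube I)] {z : AK.Om k} (hz : Pt S z) {v : AK.Cube I} (hv : Pt S v) :
    Ar S fun p : ℕ × (ℤ × List ℤ) => Opt z v p.1 p.2 := by
  have hg := good_ar (I := I) hS hv
  have he := en_arr hMXSC hFFSC hS hz
  refine Ar.and hS hg ?_
  refine Ar.all hS (R := fun (p : ℕ × (ℤ × List ℤ)) (q : ℤ × List ℤ) => Good v p.1 q →
    ∀ j : ℤ, j.natAbs ≤ p.1 → ∃ j' : ℤ, j'.natAbs ≤ p.1 ∧
      AK.FF (AK.sh j (mx z p.2)) ≤ AK.FF (AK.sh j' (mx z q)) + 1 / ((p.1 : ℝ) + 1)) ?_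
  refine Ar.imp hS ?_ ?_
  · exact Ar.comp hS hg (f := fun t : (ℕ × (ℤ × List ℤ)) × (ℤ × List ℤ) => (t.1.1, t.2))
      ((Primrec.fst.comp Primrec.fst).pair Primrec.snd)
  refine Ar.all hS (R := fun (t : (ℕ × (ℤ × List ℤ)) × (ℤ × List ℤ)) (j : ℤ) =>
    j.natAbs ≤ t.1.1 → ∃ j' : ℤ, j'.natAbs ≤ t.1.1 ∧
      AK.FF (AK.sh j (mx z t.1.2)) ≤ AK.FF (AK.sh j' (mx z t.2)) + 1 / ((t.1.1 : ℝ) + 1)) ?_
  refine Ar.imp hS ?_ ?_
  · exact Ar.le hS ((ArF.snd hS).natAbs hS)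
      (ArF.of_primrec hS (Primrec.fst.comp (Primrec.fst.comp Primrec.fst)))
  refine Ar.ex hS (R := fun (t : ((ℕ × (ℤ × List ℤ)) × (ℤ × List ℤ)) × ℤ) (j' : ℤ) =>
    j'.natAbs ≤ t.1.1.1 ∧
      AK.FF (AK.sh t.2 (mx z t.1.1.2)) ≤
        AK.FF (AK.sh j' (mx z t.1.2)) + 1 / ((t.1.1.1 : ℝ) + 1)) ?_
  refine Ar.and hS ?_ ?_
  · exact Ar.le hS ((ArF.snd hS).natAbs hS)
      (ArF.of_primrec hS (Primrec.fst.comp (Primrec.fst.comp (Primrec.fst.comp Primrec.fst))))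
  · refine ArR.rle hS (f := fun t : (((ℕ × (ℤ × List ℤ)) × (ℤ × List ℤ)) × ℤ) × ℤ =>
      AK.FF (AK.sh t.1.2 (mx z t.1.1.1.2)))
      (g := fun t : (((ℕ × (ℤ × List ℤ)) × (ℤ × List ℤ)) × ℤ) × ℤ =>
      AK.FF (AK.sh t.2 (mx z t.1.1.2)) + 1 / ((t.1.1.1.1 : ℝ) + 1)) ?_ ?_ ?_
    · exact ArR.comp hS he (g := fun t : (((ℕ × (ℤ × List ℤ)) × (ℤ × List ℤ)) × ℤ) × ℤ =>
        (t.1.1.1.2, t.1.2)) ((Primrec.snd.comp (Primrec.fst.comp (Primrec.fst.comp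
          Primrec.fst))).pair (Primrec.snd.comp Primrec.fst))
    · refine ArR.add hS ?_ ?_ (fun t => FF_nonneg _) (fun t => by positivity)
      · exact ArR.comp hS he (g := fun t : (((ℕ × (ℤ × List ℤ)) × (ℤ × List ℤ)) × ℤ) × ℤ =>
          (t.1.1.2, t.2)) ((Primrec.snd.comp (Primrec.fst.comp Primrec.fst)).pair Primrec.snd)
      · refine (ArR.rat hS (u := fun _ => 1)
          (v := fun t : (((ℕ × (ℤ × List ℤ)) × (ℤ × List ℤ)) × ℤ) × ℤ => t.1.1.1.1)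
          (ArF.const hS 1) (ArF.of_primrec hS (Primrec.fst.comp (Primrec.fst.comp
            (Primrec.fst.comp Primrec.fst))))).congr fun t => ?_
        simp
    · intro t
      exact add_nonneg (FF_nonneg _) (by positivity)

end I_KAA

open I_KAA in
theorem KAA_pf (hOPT : S_OPT) (hMXSC : S_MXSC) (hFFSC : S_FFSC) (hAPX : AK.S_APX)
    (hCPM : HK.S_LAWCPM) (hCU : S_LAWCU) (hCCU : S_LAWCCU) : S_KAA := by
  intro S U hS hU k I _ M z v hM hzv hz hv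
  have := hCPM k
  have := hCU I
  have := hCCU I
  obtain ⟨f, hf, hfR⟩ := Ar.choose hS (R := Opt z v) (opt_ar hMXSC hFFSC hS hz hv) (by
    intro L
    obtain ⟨a, b, h1, h2⟩ := hOPT k I z v L
    refine ⟨(a, b), h1, fun q hq j hj => ?_⟩
    obtain ⟨j', h3, h4⟩ := h2 q.1 q.2 hq j ((abs_le_natAbs j L).2 hj)
    exact ⟨j', (abs_le_natAbs j' L).1 h3, h4⟩)
  have hw : sc S (fun L : ℕ => mx z (f L)) :=
    LawC.sc_comp S (ℤ × List ℤ) ℕ (mx z) f hS (hMXSC S hS k z hz) hf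
  obtain ⟨m, -, hm⟩ := isCompact_univ.ultrafilter_le_nhds (U.map fun L : ℕ => mx z (f L))
    (by simp)
  have hm' : Tendsto (fun L : ℕ => mx z (f L)) (U : Filter ℕ) (𝓝 m) := hm
  refine ⟨m, ?_, ?_⟩
  · refine LawC.sc_lim S U Unit (fun p : Unit × ℕ => mx z (f p.2)) (fun _ => m) hS hU ?_
      (fun _ => hm')
    exact LawC.sc_comp S ℕ (Unit × ℕ) (fun L : ℕ => mx z (f L)) (fun p => p.2) hS hw
      (ArF.snd hS)
  · refine hAPX k (AK.Cube I) M z v (fun L => {v' | near L v' v}) (fun L => (f L).1)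
      (fun L => (f L).2) hM hzv (fun L => HK.near_mem_nhds L v) ?_ (fun L n hn => (hfR L).1 n hn)
      ?_ m ?_
    · intro V hV
      obtain ⟨L₀, hL₀⟩ := Law.near_basis v V hV
      exact ⟨L₀, fun L hL y hy => hL₀ y (Law.near_mono _ _ _ _ hL (Law.near_symm _ _ _ hy))⟩
    · intro L a' b' hab j hj
      obtain ⟨j', h3, h4⟩ := (hfR L).2 (a', b') hab j ((abs_le_natAbs j L).1 hj)
      exact ⟨j', (abs_le_natAbs j' L).2 h3, h4⟩
    · have h1 : MapClusterPt m (U : Filter ℕ) (fun L : ℕ => mx z (f L)) := hm'.mapClusterPt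
      exact ClusterPt.mono h1 (map_mono hU.top)

end Pool.Agent.Work.MP_69fea5_lc.KC
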