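import Pool.Agent.Work.MP_69fea5_lc.KC.Stmts
import Pool.Agent.Work.MP_69fea5_lc.HK.InstPM

/-!
Block [69fea5 KC], item LAWCPM: from `HK/InstPM.lean`.  Author helper31.
-/

set_option autoImplicit false

namespace Pool.Agent.Work.MP_69fea5_lc.KC

theorem LAWCPM_pf : HK.S_LAWCPM := fun k => HK.lawCPM k

end Pool.Agent.Work.MP_69fea5_lc.KC
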