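import Pool.Agent.Work.MP_69fea5_lc.KC.Stmts
import Pool.Agent.Work.MP_69fea5_lc.HK.InstPM
import Pool.Agent.Work.MP_69fea5_lc.AK.I_KB

/-!
Item MXSC of block [69fea5 KC]: averages of point masses are coded.
-/

set_option autoImplicit false

open Filter Topology MeasureTheory

namespace Pool.Agent.Work.MP_69fea5_lc.KC

open Pool.Agent.Work.MP_69fea5_lc
open Pool.Agent.Work.MP_69fea5_lc.HK (Cl DU Ar ArF ArR Dat Law LawC act near sc Pt oc Mn mr Sol ext)

namespace I_MXSC

theorem sum_getD {M : Type*} [AddCommMonoid M] (f : ℤ → M) (l : List ℤ) :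
    (l.map f).sum = ∑ i ∈ Finset.range l.length, f (l.getD i 0) := by
  induction l with
  | nil => simp
  | cons a l ih =>
    rw [List.length_cons, Finset.sum_range_succ']
    simp only [List.map_cons, List.sum_cons, List.getD_cons_succ, List.getD_cons_zero]
    rw [ih, add_comm]

open Classical in
theorem mix_cyl {k : ℕ} (a : ℤ) (b : List ℤ) (z : AK.Om k) (P : HK.C k) :
    mr (AK.mix a b z) (HK.cyl P) =
      (∑ i ∈ Finset.range (b.length + 1),
        if ∀ p ∈ P, z (p.1 + (a :: b).getD i 0) = p.2 then (1 : ℝ) else 0) /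
        ((b.length : ℝ) + 1) := by
  have h0 : mr (AK.mix a b z) (HK.cyl P) = (AK.mixM a b z (HK.cyl P)).toReal := rfl
  rw [h0]
  unfold AK.mixM
  rw [Measure.smul_apply, smul_eq_mul, ENNReal.toReal_mul, ENNReal.toReal_inv,
    ENNReal.toReal_natCast, AK.I_KB.sum_dirac _ _ (HK.I_MEASW.measurable_cyl P), sum_getD,
    ENNReal.toReal_sum]
  · rw [inv_mul_eq_div, List.length_cons]
    congr 1
    · refine Finset.sum_congr rfl fun i _ => ?_
      have h1 : AK.sh ((a :: b).getD i 0) z ∈ HK.cyl P ↔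
          ∀ p ∈ P, z (p.1 + (a :: b).getD i 0) = p.2 := Iff.rfl
      by_cases h : ∀ p ∈ P, z (p.1 + (a :: b).getD i 0) = p.2
      · rw [if_pos h, if_pos (h1.2 h)]
        simp
      · rw [if_neg h, if_neg (fun h' => h (h1.1 h'))]
        simp
    · push_cast
      rfl
  · intro i _
    split_ifs <;> simp

end I_MXSC

open Classical in
theorem MXSC_pf : S_MXSC := by
  intro S hS k z hz
  have hz' : ArF S (fun p : Unit × ℤ => z p.2) := hz
  have hz1 : ArF S (fun t : ℤ => z t) :=
    hz'.comp hS (f := fun t : ℤ => ((), t)) (ArF.of_primrec hS ((Primrec.const ()).pair Primrec.id))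
  have key : ArR S fun q : (ℤ × List ℤ) × HK.C k =>
      (∑ i ∈ Finset.range (q.1.2.length + 1),
        if ∀ p ∈ q.2, z (p.1 + (q.1.1 :: q.1.2).getD i 0) = p.2 then (1 : ℝ) else 0) /
        ((q.1.2.length : ℝ) + 1) := by
    refine HK.ArR.divn hS ?_ (fun q => ?_) (v := fun q : (ℤ × List ℤ) × HK.C k => q.1.2.length)
      (ArF.of_primrec hS (Primrec.list_length.comp (Primrec.snd.comp Primrec.fst)))
    · refine HK.ArR.sum hS (f := fun (q : (ℤ × List ℤ) × HK.C k) i =>
        if ∀ p ∈ q.2, z (p.1 + (q.1.1 :: q.1.2).getD i 0) = p.2 then (1 : ℝ) else 0) ?_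
        (fun q i => ?_) (ArF.of_primrec hS (Primrec.succ.comp
          (Primrec.list_length.comp (Primrec.snd.comp Primrec.fst))))
      · refine HK.ArR.ind hS ?_
        refine HK.Ar.ballList hS (R := fun (w : ((ℤ × List ℤ) × HK.C k) × ℕ) (p : ℤ × Fin k) =>
          z (p.1 + (w.1.1.1 :: w.1.1.2).getD w.2 0) = p.2) ?_
          (ArF.of_primrec hS (Primrec.snd.comp Primrec.fst))
        refine HK.Ar.eq hS ?_ (ArF.of_primrec hS (Primrec.snd.comp Primrec.snd))
        refine hz1.comp hS (f := fun w : (((ℤ × List ℤ) × HK.C k) × ℕ) × ℤ × Fin k =>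
          w.2.1 + (w.1.1.1.1 :: w.1.1.1.2).getD w.1.2 0) ?_
        refine ArF.of_primrec hS ?_
        refine HK.primrec_int_add.comp (Primrec.fst.comp Primrec.snd) ?_
        refine (Primrec.list_getD 0).comp ?_ (Primrec.snd.comp Primrec.fst)
        refine Primrec.list_cons.comp ?_ ?_
        · exact Primrec.fst.comp (Primrec.fst.comp (Primrec.fst.comp Primrec.fst))
        · exact Primrec.snd.comp (Primrec.fst.comp (Primrec.fst.comp Primrec.fst))
      · split_ifs <;> norm_num
    · exact Finset.sum_nonneg fun i _ => by split_ifs <;> norm_num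
  exact key.congr fun q => I_MXSC.mix_cyl q.1.1 q.1.2 z q.2

end Pool.Agent.Work.MP_69fea5_lc.KC
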