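import Pool.Agent.Work.MP_69fea5_lc.KC.Stmts

/-!
Block [69fea5 KC], item OPT: almost optimal averages exist.
-/

set_option autoImplicit false

open Filter Topology MeasureTheory

namespace Pool.Agent.Work.MP_69fea5_lc.KC

open Pool.Agent.Work.MP_69fea5_lc.HK (Cl DU Ar ArF ArR Dat Law LawC act near sc Pt oc Mn mr Sol ext)

namespace I_OPT

theorem near_self {I : Type} [Primcodable I] (L : ℕ) (v : AK.Cube I) : near L v v := by
  intro i _ t _
  rw [sub_self, abs_zero]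
  positivity

/-- the times -/
noncomputable def J (L : ℕ) : Finset ℤ := Finset.Icc (-(L : ℤ)) L

theorem J_ne (L : ℕ) : (J L).Nonempty := ⟨0, by simp [J]⟩

theorem mem_J {L : ℕ} {j : ℤ} : j ∈ J L ↔ |j| ≤ (L : ℤ) := by
  rw [J, Finset.mem_Icc, abs_le]

/-- the maximum of the energies -/
noncomputable def G {k : ℕ} (z : AK.Om k) (L : ℕ) (p : ℤ × List ℤ) : ℝ :=
  (J L).sup' (J_ne L) fun j => AK.FF (AK.sh j (AK.mix p.1 p.2 z))

theorem le_G {k : ℕ} (z : AK.Om k) (L : ℕ) (p : ℤ × List ℤ) {j : ℤ} (hj : |j| ≤ (L : ℤ)) :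
    AK.FF (AK.sh j (AK.mix p.1 p.2 z)) ≤ G z L p :=
  Finset.le_sup' (fun j => AK.FF (AK.sh j (AK.mix p.1 p.2 z))) (mem_J.2 hj)

theorem exists_G {k : ℕ} (z : AK.Om k) (L : ℕ) (p : ℤ × List ℤ) :
    ∃ j : ℤ, |j| ≤ (L : ℤ) ∧ G z L p = AK.FF (AK.sh j (AK.mix p.1 p.2 z)) := by
  obtain ⟨j, hj, h⟩ := Finset.exists_mem_eq_sup' (J_ne L)
    (fun j => AK.FF (AK.sh j (AK.mix p.1 p.2 z)))
  exact ⟨j, mem_J.1 hj, h⟩

end I_OPT

open I_OPT in
/-- almost optimal averages exist -/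
theorem OPT_pf (hENG : AK.S_ENG) : S_OPT := by
  intro k I _ z v L
  set T : Set ℝ := {g | ∃ p : ℤ × List ℤ, (∀ n ∈ p.1 :: p.2, near L (AK.sh n v) v) ∧
    g = G z L p} with hT
  have hne : T.Nonempty := by
    refine ⟨_, (0, []), ?_, rfl⟩
    intro n hn
    have hn0 : n = 0 := by simpa using hn
    subst hn0
    rw [AK.sh_zero]
    exact near_self L v
  have hbd : BddBelow T := by
    refine ⟨0, ?_⟩
    rintro _ ⟨p, -, rfl⟩
    obtain ⟨j, -, hj⟩ := exists_G z L p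
    rw [hj]
    exact ((hENG k).2.1 _).1
  have hpos : (0 : ℝ) < 1 / ((L : ℝ) + 1) := by positivity
  obtain ⟨g, ⟨⟨a, b⟩, hab, rfl⟩, hg⟩ := exists_lt_of_csInf_lt hne
    (show sInf T < sInf T + 1 / ((L : ℝ) + 1) by linarith)
  refine ⟨a, b, hab, fun a' b' hab' j hj => ?_⟩
  obtain ⟨j', hj', h'⟩ := exists_G z L (a', b')
  refine ⟨j', hj', ?_⟩
  have h1 := le_G z L (a, b) hj
  have h2 : sInf T ≤ G z L (a', b') := csInf_le hbd ⟨(a', b'), hab', rfl⟩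
  rw [h'] at h2
  dsimp only at h1 h2
  linarith

end Pool.Agent.Work.MP_69fea5_lc.KC
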