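import Pool.Agent.Work.MP_69fea5_lc.KC.Sys

/-!
Block [69fea5 KC]: the coded part on top of the classical part `AK`: statements of the items.
-/

set_option autoImplicit false

open Filter Topology MeasureTheory

namespace Pool.Agent.Work.MP_69fea5_lc.KC

open Pool.Agent.Work.MP_69fea5_lc.HK (Cl DU Ar ArF ArR Dat Law LawC act near sc Pt oc Mn mr Sol ext)

/-! ### laws -/

def S_LAWCU : Prop := ∀ (I : Type) [Primcodable I], Law (AK.Cube I)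
def S_LAWCCU : Prop := ∀ (I : Type) [Primcodable I], LawC (AK.Cube I)

/-! ### cylinders -/

/-- the constraints of the word `w` centred at `n` -/
def con {k : ℕ} (w : AK.Wd k) (n : ℤ) : HK.C k :=
  (List.range w.length).filterMap fun i : ℕ =>
    (w[i]?).map fun a => (n - ((w.length / 2 : ℕ) : ℤ) + i, a)

/-- the cylinder of `con w n` is the cylinder of `w` at `n` -/
def S_CON : Prop := ∀ (k : ℕ) (w : AK.Wd k) (n : ℤ), HK.cyl (con w n) = AK.cyl w n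

/-- `con` is coded -/
def S_CONF : Prop := ∀ (S : Set (Set ℕ)), Cl S → ∀ k : ℕ,
  ArF S fun p : AK.Wd k × ℤ => con p.1 p.2

/-- the measures of the cylinders are coded -/
def S_CYSC : Prop := ∀ (S : Set (Set ℕ)), Cl S → ∀ (k : ℕ) (β : Type) [Primcodable β]
  (m : β → AK.PM k), sc S m → ArR S fun p : β × AK.Wd k × ℤ => mr (m p.1) (AK.cyl p.2.1 p.2.2)

/-! ### the base point -/

/-- existence of finite data for the base point -/
def S_ZEX : Prop := ∀ (k : ℕ) (c : AK.Om k) (m0 : AK.PM k), (∃ z, AK.ZS c m0 z) →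
  ∀ L : ℕ, ∃ x : ℕ, L ≤ x ∧ near L (AK.sh (x : ℤ) m0) m0 ∧ ∃ W : HK.C k,
    (∀ t : ℤ, |t| ≤ (L : ℤ) → ∃ a, (t, a) ∈ W) ∧
    0 < mr m0 (HK.cyl (W ++ HK.wc (AK.sh (x : ℤ) c) x L))

/-- the base point from finite data -/
def S_ZLIM : Prop := ∀ (k : ℕ) (c : AK.Om k) (m0 : AK.PM k) (U : Ultrafilter ℕ)
  (x : ℕ → ℕ) (W : ℕ → HK.C k) (z : AK.Om k), (U : Filter ℕ) ≤ atTop →
  (∀ L, L ≤ x L ∧ near L (AK.sh (x L : ℤ) m0) m0 ∧
    (∀ t : ℤ, |t| ≤ (L : ℤ) → ∃ a, (t, a) ∈ W L) ∧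
    0 < mr m0 (HK.cyl (W L ++ HK.wc (AK.sh (x L : ℤ) c) (x L) L))) →
  (∀ t : ℤ, ∀ᶠ L in (U : Filter ℕ), ∀ a, (t, a) ∈ W L → z t = a) → AK.ZS c m0 z

/-- a coded base point -/
def S_KZS : Prop := ∀ (S : Set (Set ℕ)) (U : Ultrafilter ℕ), Cl S → DU S U →
  ∀ (k : ℕ) (c : AK.Om k) (m0 : AK.PM k), Pt S c → Pt S m0 → (∃ z, AK.ZS c m0 z) →
    ∃ z, Pt S z ∧ AK.ZS c m0 z

/-! ### the isometric extension -/

/-- admissible words: approximation of the sections of `NP` -/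
def adm {k : ℕ} (c : AK.Om k) (m0 : AK.PM k) (P : AK.Wd k) (z : AK.Om k) (L : ℕ)
    (w : List (Fin k)) : Prop :=
  ∀ N : ℕ, ∃ x : ℕ, N ≤ x ∧ HK.wd L (AK.sh (x : ℤ) c) = w ∧ near L (AK.sh (x : ℤ) m0) m0 ∧
    0 < mr m0 (HK.cyl (con P 0 ++ HK.wc z x L))

/-- the kernels as limits -/
def S_KAPF : Prop := ∀ (k : ℕ) (c : AK.Om k) (m0 : AK.PM k) (D : Finset (Fin k)),
  AK.Stage c m0 D → ∀ (P : AK.Wd k) (z : AK.Om k), (z, m0) ∈ AK.MM m0 →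
    ∀ Q : Set (AK.Om k), IsClopen Q →
      mr m0 (Q ∩ AK.AP c m0 P z m0) = ⨅ L : ℕ, mr m0 (Q ∩ {u | adm c m0 P z L (HK.wd L u)})

/-- admissibility is coded -/
def S_ADM : Prop := ∀ (S : Set (Set ℕ)), Cl S → ∀ (k : ℕ) (c : AK.Om k) (m0 : AK.PM k)
  (z : AK.Om k), Pt S c → Pt S m0 → Pt S z →
    Ar S fun p : (AK.Wd k × ℕ) × List (Fin k) => adm c m0 p.1.1 z p.1.2 p.2

/-- the base point of the isometric extension is coded -/
def S_KTH : Prop := ∀ (S : Set (Set ℕ)), Cl S → ∀ (k : ℕ) (c : AK.Om k) (m0 : AK.PM k)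
  (D : Finset (Fin k)), AK.Stage c m0 D → Pt S c → Pt S m0 → ∀ z, Pt S z →
    (z, m0) ∈ AK.MM m0 → Pt S (AK.Th c m0 (z, m0))

/-! ### energy -/

/-- averages of point masses are coded -/
def S_MXSC : Prop := ∀ (S : Set (Set ℕ)), Cl S → ∀ (k : ℕ) (z : AK.Om k), Pt S z →
  sc S fun p : ℤ × List ℤ => AK.mix p.1 p.2 z

/-- the energy is coded -/
def S_FFSC : Prop := ∀ (S : Set (Set ℕ)), Cl S → ∀ (k : ℕ) (β : Type) [Primcodable β]
  (m : β → AK.PM k), sc S m → ArR S fun b => AK.FF (m b)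

/-- almost optimal averages exist -/
def S_OPT : Prop := ∀ (k : ℕ) (I : Type) [Primcodable I] (z : AK.Om k) (v : AK.Cube I) (L : ℕ),
  ∃ (a : ℤ) (b : List ℤ), (∀ n ∈ a :: b, near L (AK.sh n v) v) ∧
    ∀ (a' : ℤ) (b' : List ℤ), (∀ n ∈ a' :: b', near L (AK.sh n v) v) →
      ∀ j : ℤ, |j| ≤ (L : ℤ) → ∃ j' : ℤ, |j'| ≤ (L : ℤ) ∧
        AK.FF (AK.sh j (AK.mix a b z)) ≤ AK.FF (AK.sh j' (AK.mix a' b' z)) + 1 / ((L : ℝ) + 1)

/-- a coded measure of the energy set -/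
def S_KAA : Prop := ∀ (S : Set (Set ℕ)) (U : Ultrafilter ℕ), Cl S → DU S U →
  ∀ (k : ℕ) (I : Type) [Primcodable I] (M : Set (AK.Om k × AK.Cube I)) (z : AK.Om k)
    (v : AK.Cube I), AK.MinSet M → (z, v) ∈ M → Pt S z → Pt S v →
      ∃ m, Pt S m ∧ (v, m) ∈ AK.AA M

/-! ### zones -/

/-- the condition `Rb` in coordinates -/
def RbF {k : ℕ} (D : Finset (Fin k)) (v : AK.Cube (AK.Ix k)) : Prop :=
  ∃ L : ℕ, ∀ j : ℤ, (∀ w : AK.Wd k, Encodable.encode w ≤ L →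
    |(v (.inl w) j : ℝ) - v (.inl w) 0| < 1 / (L + 1)) → ∀ a, a ∉ D → (v (.inl [a]) j : ℝ) ≤ 0

/-- the zones in coordinates -/
def ZNF {k : ℕ} (c : AK.Om k) (m0 : AK.PM k) (D : Finset (Fin k)) (r : Fin k)
    (v : AK.Cube (AK.Ix k)) : Prop :=
  (∃ P, AK.Blocked c m0 P ∧ AK.mid P = some r ∧ (0 : ℝ) < v (.inr (P, P)) 0) ∧ RbF D v

def S_KRB : Prop := ∀ (k : ℕ) (D : Finset (Fin k)) (v : AK.Cube (AK.Ix k)) (m : AK.PM k),
  (∀ w n, v (.inl w) n = AK.toI m (AK.cyl w n)) → (AK.Rb D m ↔ RbF D v)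

/-- points of the orbit closure of `Th` have a measure -/
def S_MEX : Prop := ∀ (k : ℕ) (c : AK.Om k) (m0 : AK.PM k) (D : Finset (Fin k)),
  AK.Stage c m0 D → ∀ z, (z, m0) ∈ AK.MM m0 → ∀ v ∈ AK.orb (AK.Th c m0 (z, m0)),
    ∃ m : AK.PM k, ∀ w n, v (.inl w) n = AK.toI m (AK.cyl w n)

/-- blocked words are recognised -/
def S_KBL : Prop := ∀ (S : Set (Set ℕ)), Cl S → ∀ (k : ℕ) (c : AK.Om k) (m0 : AK.PM k),
  Pt S c → Pt S m0 → Ar S fun w : AK.Wd k => AK.Blocked c m0 w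

/-- zones are recognised -/
def S_KZN : Prop := ∀ (S : Set (Set ℕ)), Cl S → ∀ (k : ℕ) (c : AK.Om k) (m0 : AK.PM k)
  (D : Finset (Fin k)) (r : Fin k), Pt S c → Pt S m0 → ∀ (β : Type) [Primcodable β]
  (v : β → AK.Cube (AK.Ix k)), sc S v → Ar S fun b => ZNF c m0 D r (v b)

/-! ### the step, the first stage, the greedy -/

def S_KSTEP : Prop := ∀ (S : Set (Set ℕ)) (U : Ultrafilter ℕ), Cl S → DU S U →
  ∀ (k : ℕ) (c : AK.Om k) (m0 : AK.PM k) (D : Finset (Fin k)), Pt S c → Pt S m0 →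
    AK.Stage c m0 D → AK.CaseII c m0 → ∃ r ∈ D, ∃ m, Pt S m ∧ AK.Stage c m (D.erase r)

def S_KINIT : Prop := ∀ (S : Set (Set ℕ)) (U : Ultrafilter ℕ), Cl S → DU S U →
  ∀ (k : ℕ) (c : AK.Om k), Pt S c → ∃ m, Pt S m ∧ AK.Stage c m Finset.univ

def S_KCI : Prop := ∀ (S : Set (Set ℕ)), Cl S → ∀ (k : ℕ) (c : ℕ → Fin k) (m : AK.PM k),
  Pt S (ext c) → Pt S m → ¬ AK.CaseII (ext c) m → Sol S c

/-- the colouring as a point -/
def S_EXTC : Prop := ∀ (S : Set (Set ℕ)), Cl S → ∀ (k : ℕ) (c : ℕ → Fin k), ArF S c →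
  Pt S (ext c)

theorem MAINU_pf (hI : S_KINIT) (hA : S_KSTEP) (hC : S_KCI) (hE : S_EXTC) : HK.S_MAINU := by
  intro S U hS hU k c hc
  have hpc := hE S hS k c hc
  have key : ∀ (n : ℕ) (m : AK.PM k) (D : Finset (Fin k)), D.card = n → Pt S m →
      AK.Stage (ext c) m D → Sol S c := by
    intro n
    induction n using Nat.strong_induction_on with
    | _ n ih =>
      intro m D hn hm hs
      by_cases h2 : AK.CaseII (ext c) m
      · obtain ⟨r, hr, m', hm', hs'⟩ := hA S U hS hU k (ext c) m D hpc hm hs h2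
        exact ih _ (by rw [← hn]; exact Finset.card_erase_lt_of_mem hr) m' _ rfl hm' hs'
      · exact hC S hS k c m hpc hm h2
  obtain ⟨m, hm, hs⟩ := hI S U hS hU k (ext c) hpc
  exact key _ m _ rfl hm hs

theorem MAIN_pf (hM : HK.S_MAINU) : HK.S_MAIN := by
  intro S hS k c hc
  obtain ⟨S', hS', hco, hmem, hsub⟩ :=
    HK.exists_cl_countable (HK.cod fun p : ℕ × Fin k => c p.1 = p.2)
  obtain ⟨U, hU⟩ := HK.exists_DU hS' hco
  have hc' : ArF S' c := hmem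
  obtain ⟨A, hA, hA'⟩ := hM S' U hS' hU k c hc'
  exact ⟨A, hsub S hS hc hA, hA'⟩

end Pool.Agent.Work.MP_69fea5_lc.KC
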