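import Pool.Agent.Work.MP_69fea5_lc.KC.Stmts

/-!
Block [69fea5 KC], item KRB: the condition `Rb` in coordinates.
-/

set_option autoImplicit false

open Filter Topology MeasureTheory

namespace Pool.Agent.Work.MP_69fea5_lc.KC

namespace I_KRB

theorem mem_cyl_single {k : ℕ} (a : Fin k) (z : AK.Om k) : z ∈ AK.cyl [a] 0 ↔ z 0 = a := by
  unfold AK.cyl
  constructor
  · intro h
    have := h 0 a (by simp)
    simpa using this
  · intro h i b hb
    rcases i with _ | i
    · have : a = b := by simpa using hb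
      subst this
      simpa using h
    · simp at hb

theorem coord {k : ℕ} (hPMB : AK.S_PMB) (m : AK.PM k) (w : AK.Wd k) (j : ℤ) :
    (AK.sh j m) (AK.cyl w 0) = m (AK.cyl w j) := by
  have := (hPMB k).2.1 m w 0 j
  rwa [zero_add] at this

theorem exists_pos {k : ℕ} (D : Finset (Fin k)) (m : AK.PM k) (h : m {z | z 0 ∉ D} ≠ 0) :
    ∃ a, a ∉ D ∧ 0 < m (AK.cyl [a] 0) := by
  by_contra hcon
  push Not at hcon
  apply h
  have h1 : ∀ a, a ∉ D → (m : Measure (AK.Om k)) (AK.cyl [a] 0) = 0 := by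
    intro a ha
    have h2 : m (AK.cyl [a] 0) = 0 := le_antisymm (hcon a ha) zero_le
    exact (m.null_iff_toMeasure_null _).1 h2
  rw [m.null_iff_toMeasure_null]
  have h2 : {z : AK.Om k | z 0 ∉ D} ⊆ ⋃ a : {a : Fin k // a ∉ D}, AK.cyl [a.1] 0 := by
    intro z hz
    exact Set.mem_iUnion.2 ⟨⟨z 0, hz⟩, (mem_cyl_single _ z).2 rfl⟩
  refine measure_mono_null h2 ?_
  exact measure_iUnion_null fun a => h1 a.1 a.2

end I_KRB

open I_KRB in
theorem KRB_pf (hCYL : AK.S_CYL) (hPMB : AK.S_PMB) : S_KRB := by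
  intro k D v m hv
  have hv' : ∀ (w : AK.Wd k) (j : ℤ), (v (.inl w) j : ℝ) = ((AK.sh j m) (AK.cyl w 0) : ℝ) := by
    intro w j
    rw [hv w j, coord hPMB]
    rfl
  have hv0 : ∀ (w : AK.Wd k), (v (.inl w) 0 : ℝ) = (m (AK.cyl w 0) : ℝ) := by
    intro w
    rw [hv w 0]
    rfl
  constructor
  · rintro ⟨U, hU, hR⟩
    by_contra hcon
    unfold RbF at hcon
    push Not at hcon
    choose j hj a ha hpos using hcon
    have hF : Filter.map (fun L : ℕ => AK.sh (j L) m) atTop ≤ 𝓝 m := by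
      refine (hPMB k).2.2.2.2 m _ fun w => ?_
      rw [Filter.tendsto_map'_iff, ← NNReal.tendsto_coe]
      rw [Metric.tendsto_atTop]
      intro ε hε
      obtain ⟨N, hN⟩ := exists_nat_one_div_lt hε
      refine ⟨max N (Encodable.encode w), fun L hL => ?_⟩
      have h1 := hj L w ((le_max_right _ _).trans hL)
      rw [hv' w (j L), hv0 w] at h1
      rw [Function.comp_apply, Real.dist_eq]
      refine h1.trans (lt_of_le_of_lt ?_ hN)
      apply one_div_le_one_div_of_le (by positivity)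
      have : (N : ℝ) ≤ L := by exact_mod_cast (le_max_left _ _).trans hL
      linarith
    have h2 : ∀ᶠ L : ℕ in atTop, AK.sh (j L) m ∈ U := hF hU
    obtain ⟨L, hL⟩ := h2.exists
    have h3 := hR (AK.sh (j L) m) (subset_closure ⟨j L, rfl⟩) hL
    have h4 := hpos L
    rw [hv'] at h4
    have h5 : (AK.sh (j L) m) (AK.cyl [a L] 0) ≤ (AK.sh (j L) m) {z | z 0 ∉ D} := by
      refine ProbabilityMeasure.apply_mono _ fun z hz => ?_
      have : z 0 = a L := (mem_cyl_single _ z).1 hz
      change z 0 ∉ D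
      rw [this]; exact ha L
    rw [h3] at h5
    have h6 : (AK.sh (j L) m) (AK.cyl [a L] 0) = 0 := le_antisymm h5 zero_le
    rw [h6] at h4
    simp at h4
  · rintro ⟨L, hL⟩
    have hco : ∀ w : AK.Wd k, Continuous fun m' : AK.PM k => ((m' (AK.cyl w 0) : ℝ)) := fun w =>
      NNReal.continuous_coe.comp ((hPMB k).2.2.1 _ ((hCYL k).1 w 0))
    set U : Set (AK.PM k) := {m' | ∀ w : AK.Wd k, Encodable.encode w ≤ L →
      |(m' (AK.cyl w 0) : ℝ) - m (AK.cyl w 0)| < 1 / (L + 1)} with hU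
    have hfin : {w : AK.Wd k | Encodable.encode w ≤ L}.Finite :=
      Set.Finite.preimage (Encodable.encode_injective.injOn) (Set.finite_Iic L)
    have hUo : IsOpen U := by
      have : U = ⋂ w ∈ {w : AK.Wd k | Encodable.encode w ≤ L},
          {m' : AK.PM k | |(m' (AK.cyl w 0) : ℝ) - m (AK.cyl w 0)| < 1 / (L + 1)} := by
        ext m'
        simp [hU]
      rw [this]
      refine hfin.isOpen_biInter fun w _ => ?_
      exact isOpen_lt ((hco w).sub continuous_const).abs continuous_const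
    refine ⟨U, hUo.mem_nhds ?_, fun m' hm' hmU => ?_⟩
    · intro w _
      rw [sub_self, abs_zero]
      positivity
    · by_contra hne
      obtain ⟨a, ha, hpos⟩ := exists_pos D m' hne
      have hO : IsOpen (U ∩ {m'' : AK.PM k | (0 : ℝ) < (m'' (AK.cyl [a] 0) : ℝ)}) :=
        hUo.inter (isOpen_lt continuous_const (hco [a]))
      obtain ⟨_, ⟨hx1, hx2⟩, ⟨j, rfl⟩⟩ := mem_closure_iff.1 hm' _ hO ⟨hmU, by exact_mod_cast hpos⟩
      have h1 := hL j (fun w hw => by
        rw [hv' w j, hv0 w]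
        exact hx1 w hw) a ha
      rw [hv'] at h1
      exact absurd hx2 (not_lt.2 h1)

end Pool.Agent.Work.MP_69fea5_lc.KC
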