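import Pool.Agent.Work.MP_69fea5_lc.HK.Calc
import Pool.Agent.Work.MP_69fea5_lc.HK.Stmts
import Pool.Agent.Work.MP_69fea5_lc.Three

/-!
Block [69fea5 KC]: the exact strength of the theorem for sums of at most two terms and `k ≥ 3`
colours, from `HK.S_MAIN` and the reversal for three colours.
-/

set_option autoImplicit false

namespace Pool.Agent.Work.MP_69fea5_lc.KC

open Pool.Agent.Work.MP_69fea5_lc
open Pool.Agent.Work.MP_69fea5_lc.HK (Cl Ar ArF Sol)

variable {S : Set (Set ℕ)}

/-- Turing ideals closed under projections are closed under arithmetical operations -/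
theorem cl_of_ideal (hne : S.Nonempty)
    (hS : ∀ A ∈ S, ∀ B ∈ S, ∀ C : Set ℕ, RecursiveIn {charFn A, charFn B} (charFn C) → C ∈ S)
    (hp : ∀ A ∈ S, {n | ∃ m, Nat.pair n m ∈ A} ∈ S) : Cl S where
  zero := by
    classical
    obtain ⟨A, hA⟩ := hne
    refine hS A hA A hA _ ?_
    rw [RecursiveIn.iff_nat]
    have h : Computable fun n : ℕ => if n = 0 then 1 else 0 := by
      apply Primrec.to_comp
      exact Primrec.ite (PrimrecRel.comp Primrec.eq Primrec.id (Primrec.const 0))
        (Primrec.const 1) (Primrec.const 0)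
    refine (comp_of h).of_eq fun n => ?_
    simp [charFn]
  compl A hA := by
    classical
    refine hS A hA A hA _ ?_
    rw [RecursiveIn.iff_nat]
    let χ : ℕ → ℕ := fun n => if n ∈ A then 1 else 0
    have hχ : Nat.RecursiveIn {charFn A, charFn A} (fun n => Part.some (χ n)) :=
      (Nat.RecursiveIn.oracle (charFn A) (by simp)).of_eq fun n => by simp [charFn, χ]
    have h : Computable fun n : ℕ => 1 - n := (Primrec.nat_sub.comp (Primrec.const 1)
      Primrec.id).to_comp
    refine (comp_tot (comp_of h) hχ).of_eq fun n => ?_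
    by_cases hn : n ∈ A <;> simp [charFn, χ, hn]
  inter A hA B hB := by
    classical
    refine hS A hA B hB _ ?_
    rw [RecursiveIn.iff_nat]
    let χ : ℕ → ℕ := fun n => if n ∈ A then 1 else 0
    let ψ : ℕ → ℕ := fun n => if n ∈ B then 1 else 0
    have hχ : Nat.RecursiveIn {charFn A, charFn B} (fun n => Part.some (χ n)) :=
      (Nat.RecursiveIn.oracle (charFn A) (by simp)).of_eq fun n => by simp [charFn, χ]
    have hψ : Nat.RecursiveIn {charFn A, charFn B} (fun n => Part.some (ψ n)) :=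
      (Nat.RecursiveIn.oracle (charFn B) (by simp)).of_eq fun n => by simp [charFn, ψ]
    have h : Computable fun n : ℕ => n.unpair.1 * n.unpair.2 :=
      (Primrec.nat_mul.comp (Primrec.fst.comp Primrec.unpair)
        (Primrec.snd.comp Primrec.unpair)).to_comp
    refine (comp_tot (comp_of h) (pair_tot hχ hψ)).of_eq fun n => ?_
    by_cases hn : n ∈ A <;> by_cases hn' : n ∈ B <;> simp [charFn, χ, ψ, hn, hn']
  proj A hA := hp A hA
  preim A hA f hf := by
    classical
    refine hS A hA A hA _ ?_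
    rw [RecursiveIn.iff_nat]
    let χ : ℕ → ℕ := fun n => if n ∈ A then 1 else 0
    have hχ : Nat.RecursiveIn {charFn A, charFn A} (fun n => Part.some (χ n)) :=
      (Nat.RecursiveIn.oracle (charFn A) (by simp)).of_eq fun n => by simp [charFn, χ]
    refine (comp_tot hχ (comp_of (Primrec.nat_iff.2 hf).to_comp)).of_eq fun n => ?_
    simp [charFn, χ]

/-- a colouring with classes in the family is in the family -/
theorem arF_of_classes (hC : Cl S) {k : ℕ} {c : ℕ → Fin k} (hc : ∀ i, {x | c x = i} ∈ S) :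
    ArF S c := by
  classical
  have key : ∀ s : Finset (Fin k), Ar S fun p : ℕ × Fin k => ∃ i ∈ s, c p.1 = i ∧ p.2 = i := by
    intro s
    induction s using Finset.induction_on with
    | empty => exact (Ar.const hC False).congr fun p => by simp
    | insert i s _ ih =>
      refine (Ar.or hC (Ar.and hC (Ar.mem hC (hc i) (f := fun p : ℕ × Fin k => p.1) Primrec.fst)
        (Ar.prim hC (R := fun p : ℕ × Fin k => p.2 = i)
          (PrimrecRel.comp Primrec.eq Primrec.snd (Primrec.const i)))) ih).congr fun p => by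
        rw [Finset.exists_mem_insert]
        exact Iff.rfl
  exact (key Finset.univ).congr fun p => by
    constructor
    · intro h
      exact ⟨c p.1, Finset.mem_univ _, rfl, h.symm⟩
    · rintro ⟨i, -, h1, h2⟩
      rw [h1, h2]

/-- the injection whose range is equivalent to the projection of `A` -/
noncomputable def enum (A : Set ℕ) (p : ℕ) : ℕ :=
  open Classical in
  if p ≠ 0 ∧ p - 1 ∈ A ∧ ∀ m < (p - 1).unpair.2, Nat.pair (p - 1).unpair.1 m ∉ A
    then 2 * (p - 1).unpair.1 else 2 * p + 1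

theorem enum_inj (A : Set ℕ) : Function.Injective (enum A) := by
  classical
  intro p q h
  unfold enum at h
  split_ifs at h with h1 h2 h2
  · obtain ⟨hp, hpA, hpm⟩ := h1
    obtain ⟨hq, hqA, hqm⟩ := h2
    have h3 : (p - 1).unpair.1 = (q - 1).unpair.1 := by omega
    have h4 : (p - 1).unpair.2 = (q - 1).unpair.2 := by
      rcases lt_trichotomy (p - 1).unpair.2 (q - 1).unpair.2 with h5 | h5 | h5
      · exact absurd (by rw [← h3, Nat.pair_unpair]; exact hpA) (hqm _ h5)
      · exact h5
      · exact absurd (by rw [h3, Nat.pair_unpair]; exact hqA) (hpm _ h5)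
    have h6 : p - 1 = q - 1 := by
      rw [← Nat.pair_unpair (p - 1), ← Nat.pair_unpair (q - 1), h3, h4]
    omega
  · omega
  · omega
  · omega

theorem mem_range_enum (A : Set ℕ) (n : ℕ) :
    2 * n ∈ Set.range (enum A) ↔ ∃ m, Nat.pair n m ∈ A := by
  classical
  constructor
  · rintro ⟨p, hp⟩
    unfold enum at hp
    split_ifs at hp with h1
    · refine ⟨(p - 1).unpair.2, ?_⟩
      have : n = (p - 1).unpair.1 := by omega
      rw [this, Nat.pair_unpair]
      exact h1.2.1
    · omega
  · intro h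
    refine ⟨Nat.pair n (Nat.find h) + 1, ?_⟩
    unfold enum
    rw [if_pos]
    · simp
    · refine ⟨by omega, ?_, ?_⟩
      · simpa using Nat.find_spec h
      · intro m hm
        simp only [Nat.add_sub_cancel, Nat.unpair_pair] at hm ⊢
        exact Nat.find_min h hm

theorem enum_rec {O : Set (ℕ →. ℕ)} {A : Set ℕ} (hA : Nat.RecursiveIn O (charFn A)) :
    Nat.RecursiveIn O (fun n => Part.some (enum A n)) := by
  classical
  let χ : ℕ → ℕ := fun n => if n ∈ A then 1 else 0
  have hχ : Nat.RecursiveIn O (fun n => Part.some (χ n)) := hA.of_eq fun n => by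
    simp [charFn, χ]
  refine rec_of_pre (g := χ) (Φ := fun L p =>
    if p ≠ 0 ∧ L.getD (p - 1) 0 = 1 ∧
      ∀ m < (p - 1).unpair.2, ¬ L.getD (Nat.pair (p - 1).unpair.1 m) 0 = 1
      then 2 * (p - 1).unpair.1 else 2 * p + 1) hχ ?_ ?_
  · have hL : Primrec fun q : List ℕ × ℕ => q.1 := Primrec.fst
    have hp : Primrec fun q : List ℕ × ℕ => q.2 := Primrec.snd
    have hp1 : Primrec fun q : List ℕ × ℕ => q.2 - 1 :=
      Primrec.nat_sub.comp hp (Primrec.const 1)
    have hu1 : Primrec fun q : List ℕ × ℕ => (q.2 - 1).unpair.1 :=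
      Primrec.fst.comp (Primrec.unpair.comp hp1)
    have hu2 : Primrec fun q : List ℕ × ℕ => (q.2 - 1).unpair.2 :=
      Primrec.snd.comp (Primrec.unpair.comp hp1)
    refine Primrec.ite ?_ ?_ ?_
    · refine PrimrecPred.and ?_ (PrimrecPred.and ?_ ?_)
      · exact (PrimrecRel.comp Primrec.eq hp (Primrec.const 0)).not
      · exact PrimrecRel.comp Primrec.eq ((Primrec.list_getD 0).comp hL hp1) (Primrec.const 1)
      · have hR : PrimrecRel fun (m : ℕ) (q : List ℕ × ℕ) =>
            ¬ q.1.getD (Nat.pair (q.2 - 1).unpair.1 m) 0 = 1 := by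
          refine PrimrecPred.not ?_
          exact PrimrecRel.comp Primrec.eq ((Primrec.list_getD 0).comp
            (Primrec.fst.comp Primrec.snd)
            (Primrec₂.natPair.comp (hu1.comp Primrec.snd) Primrec.fst)) (Primrec.const 1)
        exact (hR.forall_mem_list.comp (Primrec.list_range.comp hu2)
          (Primrec.id (α := List ℕ × ℕ))).of_eq (by simp)
    · exact Primrec.nat_mul.comp (Primrec.const 2) hu1
    · exact Primrec.succ.comp (Primrec.nat_mul.comp (Primrec.const 2) hp)
  · intro p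
    have hget : ∀ s < p, ((pre χ p).getD s 0 = 1 ↔ s ∈ A) := by
      intro s hs
      rw [pre_getD _ _ _ hs]
      simp [χ]
    unfold enum
    by_cases hp : p = 0
    · subst hp; simp
    · have h1 : ((pre χ p).getD (p - 1) 0 = 1 ↔ p - 1 ∈ A) := hget _ (by omega)
      have h2 : (∀ m < (p - 1).unpair.2,
          ¬ (pre χ p).getD (Nat.pair (p - 1).unpair.1 m) 0 = 1) ↔
          ∀ m < (p - 1).unpair.2, Nat.pair (p - 1).unpair.1 m ∉ A := by
        refine forall₂_congr fun m hm => ?_
        rw [hget]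
        have h3 := Nat.pair_lt_pair_right (p - 1).unpair.1 hm
        rw [Nat.pair_unpair] at h3
        omega
      have h4 : (p ≠ 0 ∧ (pre χ p).getD (p - 1) 0 = 1 ∧ ∀ m < (p - 1).unpair.2,
          ¬ (pre χ p).getD (Nat.pair (p - 1).unpair.1 m) 0 = 1) ↔
          (p ≠ 0 ∧ p - 1 ∈ A ∧ ∀ m < (p - 1).unpair.2, Nat.pair (p - 1).unpair.1 m ∉ A) := by
        rw [h1, h2]
      exact if_congr h4.symm rfl rfl

/-- the reversal -/
theorem proj_of_sol
    (hS : ∀ A ∈ S, ∀ B ∈ S, ∀ C : Set ℕ, RecursiveIn {charFn A, charFn B} (charFn C) → C ∈ S)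
    {k : ℕ} (hk : 3 ≤ k)
    (h : ∀ c : ℕ → Fin k, (∀ i, {x | c x = i} ∈ S) →
      ∃ X ∈ S, X.Infinite ∧ ∃ i, ∀ x ∈ X, 0 < x ∧ c x = i ∧ ∀ y ∈ X, y ≠ x → c (x + y) = i) :
    ∀ A ∈ S, {n | ∃ m, Nat.pair n m ∈ A} ∈ S := by
  classical
  intro A hA
  have hAo : Nat.RecursiveIn {charFn A, charFn A} (charFn A) :=
    Nat.RecursiveIn.oracle (charFn A) (by simp)
  let g := enum A
  have hg : Function.Injective g := enum_inj A
  let c : ℕ → Fin k := fun x => ⟨c3 g x, lt_of_lt_of_le (c3_lt g x) hk⟩
  obtain ⟨X, hX, hinf, i, hi⟩ := h c (by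
    intro i
    refine hS A hA A hA _ ?_
    rw [RecursiveIn.iff_nat]
    have h1 : Computable fun n : ℕ => if n = (i : ℕ) then 1 else 0 := by
      apply Primrec.to_comp
      exact Primrec.ite (PrimrecRel.comp Primrec.eq Primrec.id (Primrec.const (i : ℕ)))
        (Primrec.const 1) (Primrec.const 0)
    refine (comp_tot (comp_of h1) (c3_rec (g := g) (enum_rec hAo))).of_eq fun n => ?_
    simp [charFn, c, Fin.ext_iff])
  have hsol : IsSolution (c3 g) 2 X := by
    refine ⟨hinf, fun x hx => (hi x hx).1, i, ?_⟩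
    intro F hF hne hcard
    rcases Nat.lt_or_ge F.card 2 with h2 | h2
    · have h1 : F.card = 1 := by
        have := hne.card_pos
        omega
      obtain ⟨x, rfl⟩ := Finset.card_eq_one.1 h1
      have hx : x ∈ X := hF (by simp)
      rw [Finset.sum_singleton]
      have := (hi x hx).2.1
      exact congrArg Fin.val this
    · obtain ⟨x, y, hxy, rfl⟩ := Finset.card_eq_two.1 (le_antisymm hcard h2)
      have hx : x ∈ X := hF (by simp)
      have hy : y ∈ X := hF (by simp)
      rw [Finset.sum_pair hxy]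
      have := (hi x hx).2.2 y hy hxy.symm
      exact congrArg Fin.val this
  refine hS A hA X hX _ ?_
  rw [RecursiveIn.iff_nat]
  have hr : Nat.RecursiveIn {charFn A, charFn X} (charFn (Set.range g)) :=
    three_colours hg hsol (enum_rec (Nat.RecursiveIn.oracle (charFn A) (by simp)))
      (Nat.RecursiveIn.oracle (charFn X) (by simp))
  let χ : ℕ → ℕ := fun n => if n ∈ Set.range g then 1 else 0
  have hχ : Nat.RecursiveIn {charFn A, charFn X} (fun n => Part.some (χ n)) :=
    hr.of_eq fun n => by simp [charFn, χ]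
  have h2 : Computable fun n : ℕ => 2 * n :=
    (Primrec.nat_mul.comp (Primrec.const 2) Primrec.id).to_comp
  refine (comp_tot hχ (comp_of h2)).of_eq fun n => ?_
  have h3 := mem_range_enum A n
  have h4 : (n ∈ {n | ∃ m, Nat.pair n m ∈ A}) ↔ ∃ m, Nat.pair n m ∈ A := Iff.rfl
  simp only [charFn, χ]
  congr 1
  exact if_congr (h3.trans h4.symm) rfl rfl

/-- the exact strength of the theorem for sums of at most two terms and `k ≥ 3` colours, for
omega-models -/
theorem final_of (hM : HK.S_MAIN) (k : ℕ) (hk : 3 ≤ k) (S : Set (Set ℕ)) (hne : S.Nonempty)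
    (hS : ∀ A ∈ S, ∀ B ∈ S, ∀ C : Set ℕ, RecursiveIn {charFn A, charFn B} (charFn C) → C ∈ S) :
    (∀ c : ℕ → Fin k, (∀ i, {x | c x = i} ∈ S) →
      ∃ X ∈ S, X.Infinite ∧ ∃ i, ∀ x ∈ X, 0 < x ∧ c x = i ∧ ∀ y ∈ X, y ≠ x → c (x + y) = i) ↔
    ∀ A ∈ S, {n | ∃ m, Nat.pair n m ∈ A} ∈ S := by
  constructor
  · intro h
    exact proj_of_sol hS hk h
  · intro hp c hc
    have hC := cl_of_ideal hne hS hp
    obtain ⟨X, hX, hinf, r, hr⟩ := hM S hC k c (arF_of_classes hC hc)
    refine ⟨X, hX, hinf, r, fun x hx => ⟨(hr x hx).1, (hr x hx).2.1, fun y hy hyx => ?_⟩⟩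
    rcases lt_or_gt_of_ne hyx with h1 | h1
    · exact (hr x hx).2.2 y hy h1
    · rw [add_comm]
      exact (hr y hy).2.2 x hx h1

end Pool.Agent.Work.MP_69fea5_lc.KC
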