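import Pool.Agent.Work.MP_69fea5_lc.KC.Stmts
import Pool.Agent.Work.MP_69fea5_lc.HK.InstPM

/-!
Block [69fea5 KC]: admissible words are recognised.
-/

set_option autoImplicit false

open Filter Topology MeasureTheory

namespace Pool.Agent.Work.MP_69fea5_lc.KC

open Pool.Agent.Work.MP_69fea5_lc.HK (Cl DU Ar ArF ArR Dat Law LawC act near sc Pt oc Mn mr Sol ext)

namespace I_ADM

variable {S : Set (Set ℕ)} {β : Type} [Primcodable β] {k : ℕ}

/-- values of a coded point -/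
theorem pt_app (hS : Cl S) {z : AK.Om k} (hz : Pt S z) {f : β → ℤ} (hf : ArF S f) :
    ArF S fun b => z (f b) :=
  HK.ArF.comp hS (g := fun p : Unit × ℤ => z p.2) hz (f := fun b => ((), f b))
    (HK.ArF.pair hS (HK.ArF.const hS ()) hf)

theorem lenF (hS : Cl S) {L : β → ℕ} (hL : ArF S L) : ArF S fun b => 2 * L b + 1 :=
  HK.ArF.succ hS (HK.ArF.mul hS (HK.ArF.const hS 2) hL)

/-- windows of a coded point -/
theorem wdF (hS : Cl S) {z : AK.Om k} (hz : Pt S z) {L x : β → ℕ} (hL : ArF S L)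
    (hx : ArF S x) : ArF S fun b => HK.wd (L b) (AK.sh (x b : ℤ) z) := by
  refine HK.ArF.mapRange hS (f := fun b (i : ℕ) => z ((i : ℤ) - L b + x b)) ?_ (lenF hS hL)
  refine pt_app hS hz (HK.ArF.intAdd hS (HK.ArF.intSub hS (HK.ArF.natCast hS (HK.ArF.snd hS)) ?_) ?_)
  · exact HK.ArF.natCast hS (HK.ArF.comp hS hL (HK.ArF.fst hS))
  · exact HK.ArF.natCast hS (HK.ArF.comp hS hx (HK.ArF.fst hS))

/-- constraints of a coded point -/
theorem wcF (hS : Cl S) {z : AK.Om k} (hz : Pt S z) {L x : β → ℕ} (hL : ArF S L)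
    (hx : ArF S x) : ArF S fun b => HK.wc z (x b : ℤ) (L b) := by
  refine HK.ArF.mapRange hS
    (f := fun b (i : ℕ) => ((x b : ℤ) + ((i : ℤ) - L b), z ((i : ℤ) - L b))) ?_ (lenF hS hL)
  have h1 : ArF S fun p : β × ℕ => ((p.2 : ℤ) - L p.1) :=
    HK.ArF.intSub hS (HK.ArF.natCast hS (HK.ArF.snd hS))
      (HK.ArF.natCast hS (HK.ArF.comp hS hL (HK.ArF.fst hS)))
  exact HK.ArF.pair hS (HK.ArF.intAdd hS
    (HK.ArF.natCast hS (HK.ArF.comp hS hx (HK.ArF.fst hS))) h1) (pt_app hS hz h1)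

/-- closeness of the translates of a coded measure -/
theorem nearF (hS : Cl S) {m0 : AK.PM k} (hm : Pt S m0) {L x : β → ℕ} (hL : ArF S L)
    (hx : ArF S x) : Ar S fun b => near (L b) (AK.sh (x b : ℤ) m0) m0 := by
  have h1 : sc S fun p : Unit × ℤ => act p.2 (show HK.PM k from m0) :=
    LawC.sc_act S Unit (fun _ => (show HK.PM k from m0)) hS hm
  have h2 : sc S fun n : ℕ => act (n : ℤ) (show HK.PM k from m0) :=
    LawC.sc_comp S (Unit × ℤ) ℕ (fun p => act p.2 (show HK.PM k from m0))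
      (fun n => ((), (n : ℤ))) hS h1
      (HK.ArF.pair hS (HK.ArF.const hS ()) (HK.ArF.natCast hS (HK.ArF.id hS)))
  have h3 : sc S fun _ : ℕ => (show HK.PM k from m0) :=
    LawC.sc_comp S Unit ℕ (fun _ => (show HK.PM k from m0)) (fun _ => ()) hS hm
      (HK.ArF.const hS ())
  have h4 := LawC.sc_near S ℕ _ _ hS h2 h3
  exact HK.Ar.sub hS (R := fun p : ℕ × ℕ => near p.1 (act (p.2 : ℤ) (show HK.PM k from m0))
    (show HK.PM k from m0)) h4 (f := fun b => (L b, x b)) (HK.ArF.pair hS hL hx)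

/-- positive cylinders of a coded measure -/
theorem posF (hS : Cl S) {m0 : AK.PM k} (hm : Pt S m0) {P : β → HK.C k} (hP : ArF S P) :
    Ar S fun b => 0 < mr m0 (HK.cyl (P b)) := by
  have h1 : ArR S fun b => mr m0 (HK.cyl (P b)) :=
    HK.ArR.sub hS (f := fun p : Unit × HK.C k => mr m0 (HK.cyl p.2)) hm
      (g := fun b => ((), P b)) (HK.ArF.pair hS (HK.ArF.const hS ()) hP)
  exact HK.ArR.rlt hS (HK.ArR.zero hS) h1 fun _ => le_rfl

end I_ADM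

open I_ADM

theorem ADM_pf (hCONF : S_CONF) : S_ADM := by
  intro S hS k c m0 z hc hm hz
  refine HK.Ar.all hS (R := fun (p : (AK.Wd k × ℕ) × List (Fin k)) (N : ℕ) => ∃ x : ℕ, N ≤ x ∧
    HK.wd p.1.2 (AK.sh (x : ℤ) c) = p.2 ∧ near p.1.2 (AK.sh (x : ℤ) m0) m0 ∧
    0 < mr m0 (HK.cyl (con p.1.1 0 ++ HK.wc z x p.1.2))) ?_
  refine HK.Ar.ex hS (R := fun (q : ((AK.Wd k × ℕ) × List (Fin k)) × ℕ) (x : ℕ) => q.2 ≤ x ∧
    HK.wd q.1.1.2 (AK.sh (x : ℤ) c) = q.1.2 ∧ near q.1.1.2 (AK.sh (x : ℤ) m0) m0 ∧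
    0 < mr m0 (HK.cyl (con q.1.1.1 0 ++ HK.wc z x q.1.1.2))) ?_
  have hL : ArF S fun r : (((AK.Wd k × ℕ) × List (Fin k)) × ℕ) × ℕ => r.1.1.1.2 :=
    HK.ArF.of_primrec hS (Primrec.snd.comp (Primrec.fst.comp (Primrec.fst.comp Primrec.fst)))
  have hP : ArF S fun r : (((AK.Wd k × ℕ) × List (Fin k)) × ℕ) × ℕ => r.1.1.1.1 :=
    HK.ArF.of_primrec hS (Primrec.fst.comp (Primrec.fst.comp (Primrec.fst.comp Primrec.fst)))
  have hw : ArF S fun r : (((AK.Wd k × ℕ) × List (Fin k)) × ℕ) × ℕ => r.1.1.2 :=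
    HK.ArF.of_primrec hS (Primrec.snd.comp (Primrec.fst.comp Primrec.fst))
  have hN : ArF S fun r : (((AK.Wd k × ℕ) × List (Fin k)) × ℕ) × ℕ => r.1.2 :=
    HK.ArF.of_primrec hS (Primrec.snd.comp Primrec.fst)
  have hx : ArF S fun r : (((AK.Wd k × ℕ) × List (Fin k)) × ℕ) × ℕ => r.2 := HK.ArF.snd hS
  have hcon : ArF S fun r : (((AK.Wd k × ℕ) × List (Fin k)) × ℕ) × ℕ => con r.1.1.1.1 0 :=
    HK.ArF.comp hS (g := fun p : AK.Wd k × ℤ => con p.1 p.2) (hCONF S hS k)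
      (f := fun r : (((AK.Wd k × ℕ) × List (Fin k)) × ℕ) × ℕ => (r.1.1.1.1, (0 : ℤ)))
      (HK.ArF.pair hS hP (HK.ArF.const hS 0))
  refine HK.Ar.and hS (HK.Ar.le hS hN hx) (HK.Ar.and hS (HK.Ar.eq hS (wdF hS hc hL hx) hw)
    (HK.Ar.and hS (nearF hS hm hL hx) (posF hS hm ?_)))
  exact HK.ArF.map₂ hS (g := fun (l l' : HK.C k) => l ++ l') Primrec.list_append hcon
    (wcF hS hz hL hx)

end Pool.Agent.Work.MP_69fea5_lc.KC
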