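import Pool.Agent.Work.MP_69fea5_lc.KC.Stmts

/-!
Block [69fea5 KC], item KBL: blocked words are recognised.
-/

set_option autoImplicit false

open Filter Topology MeasureTheory

namespace Pool.Agent.Work.MP_69fea5_lc.KC

open Pool.Agent.Work.MP_69fea5_lc.HK (Cl DU Ar ArF ArR Dat Law LawC act near sc Pt oc Mn mr Sol ext)

namespace I_KBL

variable {k : ℕ}

theorem cyl_cons (P : HK.C k) (x : ℤ) (r : Fin k) :
    HK.cyl P ∩ {g : HK.X k | g x = r} = HK.cyl ((x, r) :: P) := by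
  ext g
  simp only [HK.cyl, Set.mem_inter_iff, Set.mem_ofPred_eq, List.mem_cons, forall_eq_or_imp]
  tauto

theorem zero_iff (m : AK.PM k) (A : Set (AK.Om k)) : m A = 0 ↔ ¬ (0 < mr m A) := by
  have h : mr m A = ((m A : NNReal) : ℝ) := rfl
  rw [h, NNReal.coe_pos, not_lt]
  exact ⟨fun h => h.le, fun h => le_antisymm h zero_le⟩

theorem blocked_iff (hCON : S_CON) (c : AK.Om k) (m : AK.PM k) (w : AK.Wd k) :
    AK.Blocked c m w ↔ ∃ r : Fin k, w[w.length / 2]? = some r ∧ ∃ N : ℕ, ∀ x : ℕ, N ≤ x →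
      (∀ p ∈ con w (x : ℤ), c p.1 = p.2) → ¬ ((0 : ℝ) < mr m (HK.cyl (((x : ℤ), r) :: con w 0))) := by
  unfold AK.Blocked AK.mid
  refine exists_congr fun r => and_congr_right fun _ => exists_congr fun N =>
    forall_congr' fun x => forall_congr' fun _ => ?_
  rw [← hCON k w (x : ℤ), ← hCON k w 0, cyl_cons, zero_iff]
  exact Iff.rfl

end I_KBL

open I_KBL in
theorem KBL_pf (hCON : S_CON) (hCONF : S_CONF) : S_KBL := by
  intro S hS k c m0 hc hm
  have hc1 : ArF S fun p : Unit × ℤ => c p.2 := hc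
  have hc' : ArF S fun t : ℤ => c t :=
    hc1.comp hS (f := fun t : ℤ => ((), t)) ((ArF.const hS ()).pair hS (ArF.id hS))
  have hm1 : ArR S fun p : Unit × HK.C k => mr m0 (HK.cyl p.2) := hm
  have hm' : ArR S fun P : HK.C k => mr m0 (HK.cyl P) :=
    ArR.sub hS hm1 (g := fun P : HK.C k => ((), P)) ((ArF.const hS ()).pair hS (ArF.id hS))
  have hcon := hCONF S hS k
  refine Ar.congr ?_ fun w => blocked_iff hCON c m0 w
  refine Ar.ex hS (R := fun (w : AK.Wd k) (r : Fin k) => w[w.length / 2]? = some r ∧ ∃ N : ℕ,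
    ∀ x : ℕ, N ≤ x → (∀ p ∈ con w (x : ℤ), c p.1 = p.2) →
      ¬ ((0 : ℝ) < mr m0 (HK.cyl (((x : ℤ), r) :: con w 0)))) ?_
  refine Ar.and hS ?_ ?_
  · refine Ar.eq hS ?_ ?_
    · exact (ArF.of_primrec hS (f := fun w : AK.Wd k => w[w.length / 2]?)
        (Primrec.list_getElem?.comp Primrec.id
          (Primrec.nat_div.comp Primrec.list_length (Primrec.const 2)))).comp hS (ArF.fst hS)
    · exact ArF.map hS Primrec.option_some (ArF.snd hS)
  refine Ar.ex hS (R := fun (p : AK.Wd k × Fin k) (N : ℕ) =>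
    ∀ x : ℕ, N ≤ x → (∀ q ∈ con p.1 (x : ℤ), c q.1 = q.2) →
      ¬ ((0 : ℝ) < mr m0 (HK.cyl (((x : ℤ), p.2) :: con p.1 0)))) ?_
  refine Ar.all hS (R := fun (p : (AK.Wd k × Fin k) × ℕ) (x : ℕ) => p.2 ≤ x →
    (∀ q ∈ con p.1.1 (x : ℤ), c q.1 = q.2) →
      ¬ ((0 : ℝ) < mr m0 (HK.cyl (((x : ℤ), p.1.2) :: con p.1.1 0)))) ?_
  have hx : ArF S fun p : ((AK.Wd k × Fin k) × ℕ) × ℕ => ((p.2 : ℕ) : ℤ) :=
    (ArF.snd hS).natCast hS
  have hw : ArF S fun p : ((AK.Wd k × Fin k) × ℕ) × ℕ => p.1.1.1 :=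
    ArF.of_primrec hS (Primrec.fst.comp (Primrec.fst.comp Primrec.fst))
  have hr : ArF S fun p : ((AK.Wd k × Fin k) × ℕ) × ℕ => p.1.1.2 :=
    ArF.of_primrec hS (Primrec.snd.comp (Primrec.fst.comp Primrec.fst))
  refine Ar.imp hS ?_ (Ar.imp hS ?_ (Ar.not hS ?_))
  · exact Ar.le hS (ArF.of_primrec hS (Primrec.snd.comp Primrec.fst)) (ArF.snd hS)
  · refine Ar.ballList hS (R := fun (_ : ((AK.Wd k × Fin k) × ℕ) × ℕ) (q : ℤ × Fin k) =>
      c q.1 = q.2) ?_ (hcon.comp hS (hw.pair hS hx))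
    refine Ar.eq hS ?_ ?_
    · exact hc'.comp hS (ArF.of_primrec hS (Primrec.fst.comp Primrec.snd))
    · exact ArF.of_primrec hS (Primrec.snd.comp Primrec.snd)
  · refine ArR.rlt hS (ArR.zero hS) ?_ (fun _ => le_rfl)
    refine ArR.sub hS hm' (g := fun p : ((AK.Wd k × Fin k) × ℕ) × ℕ =>
      ((p.2 : ℤ), p.1.1.2) :: con p.1.1.1 0) ?_
    refine ArF.map₂ hS (g := fun (a : ℤ × Fin k) (l : List (ℤ × Fin k)) => a :: l)
      Primrec.list_cons (hx.pair hS hr) ?_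
    exact hcon.comp hS (hw.pair hS (ArF.const hS (0 : ℤ)))

end Pool.Agent.Work.MP_69fea5_lc.KC
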