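import Pool.Agent.Work.MP_69fea5_lc.KC.I_KINIT

/-!
Item KSTEP of block [69fea5 KC]: the step.
-/

set_option autoImplicit false

open Filter Topology MeasureTheory

namespace Pool.Agent.Work.MP_69fea5_lc.KC

open Pool.Agent.Work.MP_69fea5_lc.HK (Cl DU Ar ArF ArR Dat Law LawC act near sc Pt oc Mn mr Sol ext)

open I_KINIT in
theorem KSTEP_pf (hZS1 : AK.S_ZS1) (hKZS : S_KZS) (hZS2 : AK.S_ZS2) (hSTG : AK.S_STG)
    (hKTH : S_KTH) (hTHB : AK.S_THB) (hKAA : S_KAA) (hSTP : AK.S_STP) (hKRB : S_KRB)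
    (hMEX : S_MEX) (hKZN : S_KZN) : S_KSTEP := by
  intro S U hS hU k c m0 D hc hm0 hst h2
  obtain ⟨z, hz, hZ⟩ := hKZS S U hS hU k c m0 hc hm0 (hZS1 k c m0 D hst)
  obtain ⟨hsup, hM1z, hom⟩ := hZS2 k c m0 D hst z hZ
  have hm0orb : m0 ∈ AK.orb m0 := subset_closure ⟨0, AK.sh_zero m0⟩
  have hzm : (z, m0) ∈ AK.MM m0 := (hSTG k c m0 D hst).2.2.2.1 m0 hm0orb z hsup
  set v0 : AK.Cube (AK.Ix k) := AK.Th c m0 (z, m0) with hv0def
  have hv0 : Pt S v0 := hKTH S hS k c m0 D hst hc hm0 z hz hzm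
  have hminM : AK.MinSet (AK.M1 c m0) := ((hTHB k c m0).2.2 D hst).2
  obtain ⟨m, hm, hAA⟩ := hKAA S U hS hU k (AK.Ix k) (AK.M1 c m0) z v0 hminM hM1z hz hv0
  -- the minimal point
  have hp0 : Pt S ((v0, m) : AK.Cube (AK.Ix k) × AK.PM k) := And.intro hv0 hm
  obtain ⟨b, w1, hb, hlim, hMn, hp1⟩ := HK.URP_pf S U hS hU (AK.Cube (AK.Ix k) × AK.PM k)
    (v0, m) hp0
  obtain ⟨v1, m1⟩ := w1
  have hv1 : Pt S v1 := hp1.1
  have hm1 : Pt S m1 := hp1.2
  have horb : (v1, m1) ∈ AK.orb (v0, m) := by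
    refine mem_closure_of_tendsto hlim (Eventually.of_forall fun n => ?_)
    exact ⟨(b n : ℤ), (Agree.eq _ _).symm⟩
  have hmin1 : AK.MinSet (AK.orb (v1, m1)) := minSet_of_Mn hMn
  have hv1orb : v1 ∈ AK.orb v0 := by
    refine mem_closure_of_tendsto ((continuous_fst.tendsto _).comp hlim)
      (Eventually.of_forall fun n => ?_)
    exact ⟨(b n : ℤ), rfl⟩
  have hshorb : ∀ n : ℤ, AK.sh n v1 ∈ AK.orb v0 := by
    intro n
    have h3 : oc (AK.sh n v1) ⊆ oc v0 := by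
      refine HK.oc_subset isClosed_closure (fun j y hy => HK.oc_inv hy j) ?_
      have h4 : act n v1 ∈ oc v0 := HK.oc_inv (by rw [oc_eq]; exact hv1orb) n
      exact h4
    rw [← oc_eq]
    exact h3 (HK.mem_oc_self _)
  obtain ⟨r, hr, hz1, hz2⟩ := hSTP k c m0 D hst h2 z hZ m hAA v1 m1 horb hmin1
  -- zones in coordinates
  have hZN : ∀ n : ℤ, AK.ZN c m0 D r (AK.sh n v1) ↔ ZNF c m0 D r (AK.sh n v1) := by
    intro n
    obtain ⟨mm, hmm⟩ := hMEX k c m0 D hst z hzm (AK.sh n v1) (hshorb n)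
    constructor
    · rintro ⟨⟨P, h3, h4, h5⟩, m', h6, h7⟩
      refine ⟨⟨P, h3, h4, ?_⟩, (hKRB k D _ m' h6).1 h7⟩
      exact h5
    · rintro ⟨⟨P, h3, h4, h5⟩, h6⟩
      exact ⟨⟨P, h3, h4, h5⟩, mm, hmm, (hKRB k D _ mm hmm).2 h6⟩
  -- the choice of the shifts
  have hsc1 : sc S (fun n : ℤ => act n v1) :=
    LawC.sc_comp S (Unit × ℤ) ℤ (fun p : Unit × ℤ => act p.2 v1) (fun n => ((), n)) hS
      (LawC.sc_act S Unit (fun _ => v1) hS hv1)
      (HK.ArF.of_primrec hS ((Primrec.const ()).pair Primrec.id))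
  have hsc0 : sc S (fun _ : ℤ => v0) :=
    LawC.sc_comp S Unit ℤ (fun _ => v0) (fun _ => ()) hS hv0
      (HK.ArF.of_primrec hS (Primrec.const ()))
  have hscm : sc S (fun n : ℤ => act n m1) :=
    LawC.sc_comp S (Unit × ℤ) ℤ (fun p : Unit × ℤ => act p.2 m1) (fun n => ((), n)) hS
      (LawC.sc_act S Unit (fun _ => m1) hS hm1)
      (HK.ArF.of_primrec hS ((Primrec.const ()).pair Primrec.id))
  have aR : Ar S fun p : ℕ × ℤ => near p.1 (act p.2 v1) v0 ∧ ZNF c m0 D r (act p.2 v1) := by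
    refine HK.Ar.and hS ?_ ?_
    · exact LawC.sc_near S ℤ (fun n => act n v1) (fun _ => v0) hS hsc1 hsc0
    · exact (hKZN S hS k c m0 D r hc hm0 ℤ (fun n => act n v1) hsc1).comp hS Primrec.snd
  have hex : ∀ i : ℕ, ∃ n : ℤ, near i (act n v1) v0 ∧ ZNF c m0 D r (act n v1) := by
    intro i
    have h3 : {v : AK.Cube (AK.Ix k) | near i v v0} ∈ 𝓝 v0 := by
      have h4 : IsOpen {v : AK.Cube (AK.Ix k) | near i v v0} :=
        (Law.near_open i).preimage (f := fun v => (v, v0)) (by fun_prop)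
      exact h4.mem_nhds (Law.near_refl i v0)
    obtain ⟨n, h5, h6⟩ := hz1 _ h3
    exact ⟨n, h5, (hZN n).1 h6⟩
  obtain ⟨n, an, hn⟩ := HK.Ar.choose hS aR hex
  obtain ⟨m', hm'⟩ := exists_lim U (fun i => act (n i) m1)
  refine ⟨r, hr, m', ?_, ?_⟩
  · refine LawC.sc_lim S U Unit (fun p : Unit × ℕ => act (n p.2) m1) (fun _ => m') hS hU ?_
      (fun _ => hm')
    exact LawC.sc_comp S ℤ (Unit × ℕ) (fun j => act j m1) (fun p => n p.2) hS hscm
      (an.comp hS (HK.ArF.snd hS))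
  · refine hz2 n m' (fun i => (hZN (n i)).2 (hn i).2) (fun V hV => ?_) (cluster hU.top hm')
    obtain ⟨L, hL⟩ := Law.near_basis v0 V hV
    filter_upwards [eventually_ge_atTop L] with i hi
    exact hL _ (Law.near_symm _ _ _ (Law.near_mono L i _ _ hi (hn i).1))

end Pool.Agent.Work.MP_69fea5_lc.KC
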