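import Pool.Agent.Work.MP_69fea5_lc.KC.Stmts

/-!
Block [69fea5 KC], item KZS: a coded base point.
-/

set_option autoImplicit false

open Filter Topology MeasureTheory

namespace Pool.Agent.Work.MP_69fea5_lc.KC

open Pool.Agent.Work.MP_69fea5_lc.HK (Cl DU Ar ArF ArR Dat Law LawC act near sc Pt oc Mn mr Sol ext)

namespace I_KZS

variable {S : Set (Set ℕ)} {k : ℕ}

/-- the condition of `ZEX` -/
def RR (c : AK.Om k) (m0 : AK.PM k) (L : ℕ) (q : ℕ × HK.C k) : Prop :=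
  L ≤ q.1 ∧ near L (AK.sh (q.1 : ℤ) m0) m0 ∧
    (∀ t : ℤ, |t| ≤ (L : ℤ) → ∃ a, (t, a) ∈ q.2) ∧
    0 < mr m0 (HK.cyl (q.2 ++ HK.wc (AK.sh (q.1 : ℤ) c) q.1 L))

theorem arF_letters (hS : Cl S) {c : AK.Om k} (hc : Pt S c) : ArF S fun t : ℤ => c t := by
  have h : ArF S fun p : Unit × ℤ => c p.2 := hc
  exact h.comp hS (f := fun t : ℤ => ((), t)) ((ArF.const hS ()).pair hS (ArF.id hS))

theorem arR_meas (hS : Cl S) {m0 : AK.PM k} (hm : Pt S m0) :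
    ArR S fun P : HK.C k => mr m0 (HK.cyl P) := by
  have h : ArR S fun p : Unit × HK.C k => mr m0 (HK.cyl p.2) := hm
  exact ArR.sub hS h (g := fun P : HK.C k => ((), P)) ((ArF.const hS ()).pair hS (ArF.id hS))

/-- `wc` is coded -/
theorem arF_wc (hS : Cl S) {c : AK.Om k} (hc : Pt S c) :
    ArF S fun p : ℕ × ℕ => HK.wc (AK.sh (p.1 : ℤ) c) (p.1 : ℤ) p.2 := by
  have h1 : ArF S fun p : (ℕ × ℕ) × ℕ => ((p.1.1 : ℤ) + ((p.2 : ℤ) - (p.1.2 : ℤ)),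
      c (((p.2 : ℤ) - (p.1.2 : ℤ)) + (p.1.1 : ℤ))) := by
    have hx : ArF S fun p : (ℕ × ℕ) × ℕ => (p.1.1 : ℤ) :=
      ((ArF.fst hS).comp hS (ArF.fst hS)).natCast hS
    have hL : ArF S fun p : (ℕ × ℕ) × ℕ => (p.1.2 : ℤ) :=
      ((ArF.snd hS).comp hS (ArF.fst hS)).natCast hS
    have hi : ArF S fun p : (ℕ × ℕ) × ℕ => (p.2 : ℤ) := (ArF.snd hS).natCast hS
    have hd := hi.intSub hS hL
    exact (hx.intAdd hS hd).pair hS ((arF_letters hS hc).comp hS (hd.intAdd hS hx))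
  have h2 : ArF S fun p : ℕ × ℕ => 2 * p.2 + 1 :=
    ((ArF.const hS 2).mul hS (ArF.snd hS)).succ hS
  refine (ArF.mapRange hS (f := fun (p : ℕ × ℕ) (i : ℕ) => ((p.1 : ℤ) + ((i : ℤ) - (p.2 : ℤ)),
      c (((i : ℤ) - (p.2 : ℤ)) + (p.1 : ℤ)))) h1 h2).congr fun p => ?_
  rfl

/-- the condition is coded -/
theorem ar_RR [LawC (AK.PM k)] (hS : Cl S) {c : AK.Om k} {m0 : AK.PM k} (hc : Pt S c)
    (hm : Pt S m0) : Ar S fun p : ℕ × (ℕ × HK.C k) => RR c m0 p.1 p.2 := by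
  have hL : ArF S fun p : ℕ × (ℕ × HK.C k) => p.1 := ArF.fst hS
  have hx : ArF S fun p : ℕ × (ℕ × HK.C k) => p.2.1 := (ArF.fst hS).comp hS (ArF.snd hS)
  have hW : ArF S fun p : ℕ × (ℕ × HK.C k) => p.2.2 := (ArF.snd hS).comp hS (ArF.snd hS)
  refine Ar.and hS (Ar.le hS hL hx) (Ar.and hS ?_ (Ar.and hS ?_ ?_))
  · have h1 : sc S (fun p : Unit × ℤ => act p.2 m0) := LawC.sc_act S Unit _ hS hm
    have h2 : sc S (fun x : ℕ => act (x : ℤ) m0) :=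
      LawC.sc_comp S (Unit × ℤ) ℕ _ (fun x : ℕ => ((), (x : ℤ))) hS h1
        ((ArF.const hS ()).pair hS ((ArF.id hS).natCast hS))
    have h3 : sc S (fun _ : ℕ => m0) :=
      LawC.sc_comp S Unit ℕ _ (fun _ : ℕ => ()) hS hm (ArF.const hS ())
    have h4 := LawC.sc_near S ℕ _ _ hS h2 h3
    exact Ar.sub hS h4 (f := fun p : ℕ × (ℕ × HK.C k) => (p.1, p.2.1)) (hL.pair hS hx)
  · refine (Ar.ballInt hS (R := fun (p : ℕ × (ℕ × HK.C k)) (t : ℤ) => ∃ a, (t, a) ∈ p.2.2) ?_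
      hL).congr fun p => ?_
    · refine Ar.ex hS (R := fun (q : (ℕ × (ℕ × HK.C k)) × ℤ) (a : Fin k) =>
        (q.2, a) ∈ q.1.2.2) ?_
      refine Ar.memList hS ?_ ?_
      · exact ((ArF.snd hS).comp hS (ArF.fst hS)).pair hS (ArF.snd hS)
      · exact hW.comp hS ((ArF.fst hS).comp hS (ArF.fst hS))
    · exact forall_congr' fun t => by rw [Int.abs_eq_natAbs]; norm_cast
  · refine ArR.rlt hS (ArR.zero hS) ?_ fun _ => le_rfl
    refine ArR.sub hS (arR_meas hS hm) (g := fun p : ℕ × (ℕ × HK.C k) =>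
      p.2.2 ++ HK.wc (AK.sh (p.2.1 : ℤ) c) p.2.1 p.1) ?_
    exact ArF.map₂ hS Primrec.list_append hW
      ((arF_wc hS hc).comp hS (f := fun p : ℕ × (ℕ × HK.C k) => (p.2.1, p.1)) (hx.pair hS hL))

end I_KZS

open I_KZS

theorem KZS_pf (hZEX : S_ZEX) (hZLIM : S_ZLIM) (hCPM : HK.S_LAWCPM) : S_KZS := by
  classical
  intro S U hS hU k c m0 hc hm0 hz
  have : LawC (AK.PM k) := hCPM k
  obtain ⟨f, hf, hR⟩ := Ar.choose hS (ar_RR hS hc hm0) fun L => by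
    obtain ⟨x, h1, h2, W, h3, h4⟩ := hZEX k c m0 hz L
    exact ⟨(x, W), h1, h2, h3, h4⟩
  have hW : ArF S fun L : ℕ => (f L).2 := (ArF.snd hS).comp hS hf
  -- the letters
  have hA : Ar S fun p : (ℤ × ℕ) × Fin k => ((∃ a', (p.1.1, a') ∈ (f p.1.2).2) →
      (p.1.1, p.2) ∈ (f p.1.2).2) := by
    refine Ar.imp hS ?_ ?_
    · refine Ar.ex hS (R := fun (p : (ℤ × ℕ) × Fin k) (a' : Fin k) =>
        (p.1.1, a') ∈ (f p.1.2).2) ?_
      refine Ar.memList hS ?_ ?_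
      · exact (ArF.of_primrec hS (Primrec.fst.comp (Primrec.fst.comp Primrec.fst))).pair hS
          (ArF.snd hS)
      · exact hW.comp hS (f := fun p : ((ℤ × ℕ) × Fin k) × Fin k => p.1.1.2)
          (ArF.of_primrec hS (Primrec.snd.comp (Primrec.fst.comp Primrec.fst)))
    · refine Ar.memList hS ?_ ?_
      · exact (ArF.of_primrec hS (Primrec.fst.comp Primrec.fst)).pair hS (ArF.snd hS)
      · exact hW.comp hS (f := fun p : (ℤ × ℕ) × Fin k => p.1.2)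
          (ArF.of_primrec hS (Primrec.snd.comp Primrec.fst))
  obtain ⟨g, hg, hgs⟩ := Ar.choose hS (R := fun (p : ℤ × ℕ) (a : Fin k) =>
      ((∃ a', (p.1, a') ∈ (f p.2).2) → (p.1, a) ∈ (f p.2).2)) hA fun p => by
    by_cases h : ∃ a', (p.1, a') ∈ (f p.2).2
    · obtain ⟨a', ha'⟩ := h
      exact ⟨a', fun _ => ha'⟩
    · exact ⟨c 0, fun h' => absurd h' h⟩
  obtain ⟨z, hz1, hz2⟩ := HK.exists_ulim hU (f := fun (t : ℤ) (L : ℕ) => g (t, L)) hg hS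
  refine ⟨z, ?_, ?_⟩
  · show ArF S fun p : Unit × ℤ => z p.2
    exact hz1.comp hS (ArF.snd hS)
  · refine hZLIM k c m0 U (fun L => (f L).1) (fun L => (f L).2) z hU.top (fun L => hR L) ?_
    intro t
    filter_upwards [hz2 t] with L hL a ha
    have h1 : (t, g (t, L)) ∈ (f L).2 := hgs (t, L) ⟨a, ha⟩
    -- the cylinder is not empty
    have hne : (HK.cyl ((f L).2 ++ HK.wc (AK.sh ((f L).1 : ℤ) c) (f L).1 L)).Nonempty := by
      rw [Set.nonempty_iff_ne_empty]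
      intro h0
      have h4 := (hR L).2.2.2
      rw [h0] at h4
      simp [mr] at h4
    obtain ⟨w, hw⟩ := hne
    have h2 : w t = a := hw (t, a) (List.mem_append_left _ ha)
    have h3 : w t = g (t, L) := hw (t, g (t, L)) (List.mem_append_left _ h1)
    rw [← hL, ← h3, h2]

end Pool.Agent.Work.MP_69fea5_lc.KC
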