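import Pool.Agent.Work.MP_69fea5_lc.KC.Stmts
import Pool.Agent.Work.MP_69fea5_lc.HK.Stmts

/-!
Block [69fea5 KC], item LAWPM: the topological laws for probability measures.
-/

set_option autoImplicit false

open Filter Topology MeasureTheory

namespace Pool.Agent.Work.MP_69fea5_lc.KC

namespace I_LAWPM

open Pool.Agent.Work.MP_69fea5_lc.HK (X PM C mr cyl Law act near cle' mem_cle' continuous_actX
  real_near_tri real_near_mono real_near_lim)

variable {k : ℕ}

theorem isClopen_cyl (P : C k) : IsClopen (cyl P) := by
  have e : cyl P = ⋂ p ∈ P.toFinset, {z : X k | z p.1 = p.2} := by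
    ext z
    simp [cyl]
  rw [e]
  refine Set.Finite.isClopen_biInter (Finset.finite_toSet _) fun p _ => ?_
  exact (isClopen_discrete {p.2}).preimage (continuous_apply p.1)

theorem continuous_mr {B : Set (X k)} (hB : IsClopen B) : Continuous fun m : PM k => mr m B := by
  rw [continuous_iff_continuousAt]
  intro m
  have h := ProbabilityMeasure.tendsto_measure_of_null_frontier_of_tendsto'
    (tendsto_id (x := 𝓝 m)) (E := B) (by rw [hB.frontier_eq, measure_empty])
  exact (ENNReal.tendsto_toReal (measure_ne_top _ _)).comp h

theorem isPiSystem_cyl : IsPiSystem (Set.range (cyl : C k → Set (X k))) := by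
  rintro _ ⟨P, rfl⟩ _ ⟨Q, rfl⟩ _
  refine ⟨P ++ Q, ?_⟩
  ext z
  simp only [cyl, Set.mem_ofPred_eq, List.mem_append, Set.mem_inter_iff]
  constructor
  · intro h
    exact ⟨fun p hp => h p (Or.inl hp), fun p hp => h p (Or.inr hp)⟩
  · rintro ⟨h1, h2⟩ p (hp | hp)
    · exact h1 p hp
    · exact h2 p hp

theorem gen_cyl : (inferInstance : MeasurableSpace (X k)) =
    MeasurableSpace.generateFrom (Set.range (cyl : C k → Set (X k))) := by
  apply le_antisymm
  · refine iSup_le fun t => ?_
    rintro _ ⟨s, _, rfl⟩
    have e : (fun z : X k => z t) ⁻¹' s = ⋃ a ∈ s, cyl [(t, a)] := by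
      ext z
      simp [cyl]
    rw [e]
    exact MeasurableSet.biUnion (Set.to_countable s) fun a _ =>
      MeasurableSpace.measurableSet_generateFrom ⟨[(t, a)], rfl⟩
  · apply MeasurableSpace.generateFrom_le
    rintro _ ⟨P, rfl⟩
    exact (isClopen_cyl P).isOpen.measurableSet

theorem mr_ext {m m' : PM k} (h : ∀ P : C k, mr m (cyl P) = mr m' (cyl P)) : m = m' := by
  apply Subtype.ext
  change (m : Measure (X k)) = (m' : Measure (X k))
  refine ext_of_generate_finite _ gen_cyl isPiSystem_cyl ?_ ?_
  · rintro _ ⟨P, rfl⟩
    have := h P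
    unfold mr at this
    rwa [measureReal_def, measureReal_def,
      ENNReal.toReal_eq_toReal_iff' (measure_ne_top _ _) (measure_ne_top _ _)] at this
  · have h1 : (m : Measure (X k)) Set.univ = 1 := measure_univ
    have h2 : (m' : Measure (X k)) Set.univ = 1 := measure_univ
    exact h1.trans h2.symm

theorem near_iff (L : ℕ) (m m' : PM k) : near L m m' ↔
    ∀ P ∈ cle' (C k) L, |mr m (cyl P) - mr m' (cyl P)| < 1 / (L + 1) := by
  constructor
  · intro h P hP
    exact h P (mem_cle'.1 hP)
  · intro h P hP
    exact h P (mem_cle'.2 hP)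

theorem law (k : ℕ) : Law (PM k) where
  act_zero m := by
    apply Subtype.ext
    change Measure.map (act 0 : X k → X k) (m : Measure (X k)) = m
    have : (act 0 : X k → X k) = id := by
      funext z t
      change z (t + 0) = z t
      rw [add_zero]
    rw [this, Measure.map_id]
  act_add a b m := by
    apply Subtype.ext
    change Measure.map (act (a + b) : X k → X k) (m : Measure (X k)) =
      Measure.map (act a : X k → X k) (Measure.map (act b : X k → X k) (m : Measure (X k)))
    rw [Measure.map_map (continuous_actX a).measurable (continuous_actX b).measurable]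
    congr 1
    funext z t
    change z (t + (a + b)) = z (t + a + b)
    rw [add_assoc]
  cont n := ProbabilityMeasure.continuous_map (continuous_actX n)
  near_open L := by
    have e : {p : PM k × PM k | near L p.1 p.2} = ⋂ P ∈ cle' (C k) L,
        {p : PM k × PM k | |mr p.1 (cyl P) - mr p.2 (cyl P)| < 1 / (L + 1)} := by
      ext p
      simp only [Set.mem_ofPred_eq, Set.mem_iInter]
      exact near_iff L p.1 p.2
    rw [e]
    refine isOpen_biInter_finset fun P _ => ?_
    exact isOpen_lt (((continuous_mr (isClopen_cyl P)).comp continuous_fst).sub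
      ((continuous_mr (isClopen_cyl P)).comp continuous_snd)).abs continuous_const
  near_refl L m P _ := by
    rw [sub_self, abs_zero]
    positivity
  near_symm L m m' h P hP := by
    rw [abs_sub_comm]
    exact h P hP
  near_tri L m m' m'' h h' P hP :=
    real_near_tri (h P (hP.trans (by omega))) (h' P (hP.trans (by omega)))
  near_mono L L' m m' hL h P hP := real_near_mono hL (h P (hP.trans hL))
  near_lim L p hp P hP := by
    apply real_near_lim
    have hcl : IsClosed {q : PM k × PM k |
        |mr q.1 (cyl P) - mr q.2 (cyl P)| ≤ 1 / ((L + 1 : ℕ) + 1 : ℝ)} :=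
      isClosed_le (((continuous_mr (isClopen_cyl P)).comp continuous_fst).sub
        ((continuous_mr (isClopen_cyl P)).comp continuous_snd)).abs continuous_const
    exact closure_minimal (fun q hq => (hq P (hP.trans (Nat.le_succ L))).le) hcl hp
  near_basis m U hU := by
    by_contra hcon
    push Not at hcon
    choose y hy hyU using hcon
    obtain ⟨m', -, hm'⟩ := isCompact_univ (X := PM k) (f := Filter.map y atTop)
      (by simp)
    have hm'' : MapClusterPt m' atTop y := hm'
    have heq : m' = m := by
      refine mr_ext fun P => ?_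
      have h1 : MapClusterPt (mr m' (cyl P)) atTop (fun L => mr (y L) (cyl P)) :=
        hm''.continuousAt_comp (continuous_mr (isClopen_cyl P)).continuousAt
      have h2 : Tendsto (fun L => mr (y L) (cyl P)) atTop (𝓝 (mr m (cyl P))) := by
        rw [Metric.tendsto_atTop]
        intro ε hε
        obtain ⟨N, hN⟩ := exists_nat_one_div_lt hε
        refine ⟨max N (Encodable.encode P), fun L hL => ?_⟩
        have h3 := hy L P ((le_max_right _ _).trans hL)
        rw [Real.dist_eq, abs_sub_comm]
        refine h3.trans (lt_of_le_of_lt ?_ hN)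
        apply one_div_le_one_div_of_le (by positivity)
        have : (N : ℝ) ≤ L := by exact_mod_cast (le_max_left _ _).trans hL
        linarith
      have h4 : ClusterPt (mr m' (cyl P)) (𝓝 (mr m (cyl P))) := ClusterPt.mono h1 h2
      exact @eq_of_nhds_neBot _ _ _ _ _ h4
    rw [heq] at hm''
    obtain ⟨L, hL⟩ := (hm''.frequently hU).exists
    exact hyU L hL

end I_LAWPM

theorem LAWPM_pf : HK.S_LAWPM := fun k => I_LAWPM.law k

end Pool.Agent.Work.MP_69fea5_lc.KC
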