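import Pool.Agent.Work.MP_69fea5_lc.KC.Stmts

/-!
Block [69fea5 KC], item MEX: points of the orbit closure of `Th` have a measure.
-/

set_option autoImplicit false

open Filter Topology MeasureTheory

namespace Pool.Agent.Work.MP_69fea5_lc.KC

namespace I_MEX

/-- the cylinder coordinates of a measure -/
noncomputable def J (k : ℕ) (m : AK.PM k) : AK.Wd k → ℤ → unitInterval :=
  fun w n => AK.toI m (AK.cyl w n)

theorem continuous_J (hPMB : AK.S_PMB) (hCYL : AK.S_CYL) (k : ℕ) : Continuous (J k) := by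
  refine continuous_pi fun w => continuous_pi fun n => ?_
  have h := (hPMB k).2.2.1 (AK.cyl w n) ((hCYL k).1 w n)
  exact Continuous.subtype_mk (NNReal.continuous_coe.comp h) _

end I_MEX

theorem MEX_pf (hPMB : AK.S_PMB) (hCYL : AK.S_CYL) : S_MEX := by
  intro k c m0 D _ z _ v hv
  have hcl : IsClosed {v : AK.Cube (AK.Ix k) | (fun w => v (.inl w)) ∈ Set.range (I_MEX.J k)} := by
    have h1 : IsClosed (Set.range (I_MEX.J k)) :=
      (isCompact_range (I_MEX.continuous_J hPMB hCYL k)).isClosed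
    refine h1.preimage ?_
    exact continuous_pi fun w => continuous_apply (Sum.inl w : AK.Ix k)
  have hmem : v ∈ {v : AK.Cube (AK.Ix k) | (fun w => v (.inl w)) ∈ Set.range (I_MEX.J k)} := by
    refine closure_minimal ?_ hcl hv
    rintro _ ⟨n, rfl⟩
    refine ⟨AK.sh n m0, ?_⟩
    funext w j
    apply Subtype.ext
    show ((AK.sh n m0 (AK.cyl w j) : NNReal) : ℝ) = ((m0 (AK.cyl w (j + n)) : NNReal) : ℝ)
    rw [(hPMB k).2.1 m0 w j n]
  obtain ⟨m, hm⟩ := hmem
  exact ⟨m, fun w n => by rw [← congrFun (congrFun hm w) n]; rfl⟩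

end Pool.Agent.Work.MP_69fea5_lc.KC
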