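import Pool.Agent.Work.MP_69fea5_lc.KC.Stmts

/-!
# Block [69fea5 KC], item ZEX: finite data for the base point
-/

set_option autoImplicit false

open Filter Topology MeasureTheory

namespace Pool.Agent.Work.MP_69fea5_lc.KC

open Pool.Agent.Work.MP_69fea5_lc.HK (Cl DU Ar ArF ArR Dat Law LawC act near sc Pt oc Mn mr Sol ext)

namespace I_ZEX

variable {k : ℕ}

theorem isOpen_cyl (P : HK.C k) : IsOpen (HK.cyl P : Set (HK.X k)) := by
  have h : (HK.cyl P : Set (HK.X k)) = ⋂ p ∈ {p | p ∈ P}, {z : HK.X k | z p.1 = p.2} := by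
    ext z
    simp [HK.cyl]
  rw [h]
  apply Set.Finite.isOpen_biInter (List.finite_toSet P)
  intro p _
  exact (isOpen_discrete ({p.2} : Set (Fin k))).preimage
    (continuous_apply (A := fun _ : ℤ => Fin k) p.1)

theorem mr_pos {m : AK.PM k} {A : Set (AK.Om k)} (hA : IsOpen A) {g : AK.Om k}
    (hg : g ∈ AK.supp m) (h : g ∈ A) : 0 < mr m A := by
  have h1 := hg A hA h
  have h2 : (0 : ENNReal) < (m : Measure (AK.Om k)) A := by
    rw [← ProbabilityMeasure.ennreal_coeFn_eq_coeFn_toMeasure]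
    exact_mod_cast h1
  unfold mr
  rw [Measure.real, ENNReal.toReal_pos_iff]
  exact ⟨h2, measure_lt_top _ _⟩

theorem mem_wc {a : AK.Om k} {x : ℤ} {n : ℕ} {t : ℤ} (h : |t| ≤ (n : ℤ)) :
    (x + t, a t) ∈ HK.wc a x n := by
  unfold HK.wc
  rw [abs_le] at h
  refine List.mem_map.2 ⟨(t + n).toNat, ?_, ?_⟩
  · rw [List.mem_range]
    omega
  · have h1 : (((t + n).toNat : ℕ) : ℤ) - n = t := by omega
    simp only [h1]

theorem of_mem_wc {a : AK.Om k} {x : ℤ} {n : ℕ} {p : ℤ × Fin k} (h : p ∈ HK.wc a x n) :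
    ∃ t : ℤ, |t| ≤ (n : ℤ) ∧ p = (x + t, a t) := by
  unfold HK.wc at h
  obtain ⟨i, hi, rfl⟩ := List.mem_map.1 h
  rw [List.mem_range] at hi
  refine ⟨(i : ℤ) - n, ?_, rfl⟩
  rw [abs_le]
  omega

end I_ZEX

open I_ZEX in
theorem ZEX_pf (hPM : HK.S_LAWPM) : S_ZEX := by
  intro k c m0 hz L
  have := hPM k
  obtain ⟨z0, hz0⟩ := hz
  have hU : (HK.cyl (HK.wc z0 0 L) : Set (AK.Om k)) ∈ 𝓝 z0 := by
    refine (isOpen_cyl _).mem_nhds ?_
    intro p hp
    obtain ⟨t, _, rfl⟩ := of_mem_wc hp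
    simp
  have hV : {m : AK.PM k | near L m m0} ∈ 𝓝 m0 := by
    have ho : IsOpen {m : AK.PM k | near L m m0} :=
      (Law.near_open (α := HK.PM k) L).preimage (by fun_prop : Continuous fun m : HK.PM k => (m, (m0 : HK.PM k)))
    exact ho.mem_nhds (Law.near_refl (α := HK.PM k) L m0)
  obtain ⟨x, hx, hn, g, ⟨hg, hgU⟩, hgc⟩ := hz0 _ hU _ hV L
  refine ⟨x, hx, hn, HK.wc z0 0 L, ?_, ?_⟩
  · intro t ht
    refine ⟨z0 t, ?_⟩
    have := mem_wc (a := z0) (x := 0) ht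
    rwa [zero_add] at this
  · refine mr_pos (isOpen_cyl _) hg ?_
    intro p hp
    rcases List.mem_append.1 hp with hp | hp
    · exact hgU p hp
    · obtain ⟨t, ht, rfl⟩ := of_mem_wc hp
      change g (x + t) = c (t + x)
      rw [hgc t ht, add_comm]

end Pool.Agent.Work.MP_69fea5_lc.KC
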