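import Pool.Agent.Work.MP_69fea5_lc.AK.I_AAB
import Pool.Agent.Work.MP_69fea5_lc.AK.I_APX
import Pool.Agent.Work.MP_69fea5_lc.AK.I_BLK
import Pool.Agent.Work.MP_69fea5_lc.AK.I_CLP
import Pool.Agent.Work.MP_69fea5_lc.AK.I_CS1
import Pool.Agent.Work.MP_69fea5_lc.AK.I_CST
import Pool.Agent.Work.MP_69fea5_lc.AK.I_CYL
import Pool.Agent.Work.MP_69fea5_lc.AK.I_DDA
import Pool.Agent.Work.MP_69fea5_lc.AK.I_DDC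
import Pool.Agent.Work.MP_69fea5_lc.AK.I_DNS82
import Pool.Agent.Work.MP_69fea5_lc.AK.I_ENG
import Pool.Agent.Work.MP_69fea5_lc.AK.I_GL
import Pool.Agent.Work.MP_69fea5_lc.AK.I_GLM
import Pool.Agent.Work.MP_69fea5_lc.AK.I_GLO
import Pool.Agent.Work.MP_69fea5_lc.AK.I_GLR
import Pool.Agent.Work.MP_69fea5_lc.AK.I_GLX
import Pool.Agent.Work.MP_69fea5_lc.AK.I_IMG
import Pool.Agent.Work.MP_69fea5_lc.AK.I_KB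
import Pool.Agent.Work.MP_69fea5_lc.AK.I_MC1
import Pool.Agent.Work.MP_69fea5_lc.AK.I_MC2
import Pool.Agent.Work.MP_69fea5_lc.AK.I_MMB
import Pool.Agent.Work.MP_69fea5_lc.AK.I_NPB
import Pool.Agent.Work.MP_69fea5_lc.AK.I_OMG
import Pool.Agent.Work.MP_69fea5_lc.AK.I_ORB
import Pool.Agent.Work.MP_69fea5_lc.AK.I_PMB
import Pool.Agent.Work.MP_69fea5_lc.AK.I_PRX
import Pool.Agent.Work.MP_69fea5_lc.AK.I_PSI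
import Pool.Agent.Work.MP_69fea5_lc.AK.I_SEMI
import Pool.Agent.Work.MP_69fea5_lc.AK.I_ST0
import Pool.Agent.Work.MP_69fea5_lc.AK.I_STG
import Pool.Agent.Work.MP_69fea5_lc.AK.I_STP
import Pool.Agent.Work.MP_69fea5_lc.AK.I_SUP
import Pool.Agent.Work.MP_69fea5_lc.AK.I_THB
import Pool.Agent.Work.MP_69fea5_lc.AK.I_USC
import Pool.Agent.Work.MP_69fea5_lc.AK.I_ZNA
import Pool.Agent.Work.MP_69fea5_lc.AK.I_ZNB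
import Pool.Agent.Work.MP_69fea5_lc.AK.I_ZNO
import Pool.Agent.Work.MP_69fea5_lc.AK.I_ZORN
import Pool.Agent.Work.MP_69fea5_lc.AK.I_ZS1
import Pool.Agent.Work.MP_69fea5_lc.AK.I_ZS2
import Pool.Agent.Work.MP_69fea5_lc.KC.I_ADM
import Pool.Agent.Work.MP_69fea5_lc.KC.I_CON
import Pool.Agent.Work.MP_69fea5_lc.KC.I_CONF
import Pool.Agent.Work.MP_69fea5_lc.KC.I_CYSC
import Pool.Agent.Work.MP_69fea5_lc.KC.I_FFSC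
import Pool.Agent.Work.MP_69fea5_lc.KC.I_KAA
import Pool.Agent.Work.MP_69fea5_lc.KC.I_KAPF
import Pool.Agent.Work.MP_69fea5_lc.KC.I_KBL
import Pool.Agent.Work.MP_69fea5_lc.KC.I_KCI
import Pool.Agent.Work.MP_69fea5_lc.KC.I_KINIT
import Pool.Agent.Work.MP_69fea5_lc.KC.I_KRB
import Pool.Agent.Work.MP_69fea5_lc.KC.I_KSTEP
import Pool.Agent.Work.MP_69fea5_lc.KC.I_KTH
import Pool.Agent.Work.MP_69fea5_lc.KC.I_KZN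
import Pool.Agent.Work.MP_69fea5_lc.KC.I_KZS
import Pool.Agent.Work.MP_69fea5_lc.KC.I_LAWCPM
import Pool.Agent.Work.MP_69fea5_lc.KC.I_LAWCU
import Pool.Agent.Work.MP_69fea5_lc.KC.I_LAWPM
import Pool.Agent.Work.MP_69fea5_lc.KC.I_MEX
import Pool.Agent.Work.MP_69fea5_lc.KC.I_MXSC
import Pool.Agent.Work.MP_69fea5_lc.KC.I_OPT
import Pool.Agent.Work.MP_69fea5_lc.KC.I_ZEX
import Pool.Agent.Work.MP_69fea5_lc.KC.I_ZLIM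

/-!
Block [69fea5 KC]: assembly.  For every family `S` closed under recursive-in-the-join and projection
every `k`-colouring in `S` has an infinite solution in `S` for sums of at most two terms.
-/

set_option autoImplicit false

namespace Pool.Agent.Work.MP_69fea5_lc

theorem KC.main : HK.S_MAIN := by
  have h_AK_S_ORB : AK.S_ORB := AK.ORB_pf 
  have h_AK_S_CYL : AK.S_CYL := AK.CYL_pf 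
  have h_AK_S_PMB : AK.S_PMB := AK.PMB_pf h_AK_S_CYL
  have h_AK_S_CLP : AK.S_CLP := AK.CLP_pf h_AK_S_CYL
  have h_AK_S_USC : AK.S_USC := AK.USC_pf h_AK_S_PMB h_AK_S_CLP
  have h_AK_S_KB : AK.S_KB := AK.KB_pf h_AK_S_ORB h_AK_S_CYL h_AK_S_PMB h_AK_S_USC
  have h_AK_S_SUP : AK.S_SUP := AK.SUP_pf h_AK_S_CYL h_AK_S_PMB
  have h_AK_S_ST0 : AK.S_ST0 := AK.ST0_pf h_AK_S_SUP
  have h_KC_S_MXSC : KC.S_MXSC := KC.MXSC_pf 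
  have h_KC_S_KINIT : KC.S_KINIT := KC.KINIT_pf h_AK_S_KB h_AK_S_ST0 h_KC_S_MXSC
  have h_AK_S_MMB : AK.S_MMB := AK.MMB_pf 
  have h_AK_S_OMG : AK.S_OMG := AK.OMG_pf 
  have h_AK_S_IMG : AK.S_IMG := AK.IMG_pf 
  have h_AK_S_STG : AK.S_STG := AK.STG_pf h_AK_S_ORB h_AK_S_OMG h_AK_S_IMG h_AK_S_PMB h_AK_S_USC h_AK_S_SUP h_AK_S_MMB
  have h_AK_S_ZS1 : AK.S_ZS1 := AK.ZS1_pf h_AK_S_CYL h_AK_S_PMB h_AK_S_SUP h_AK_S_MMB h_AK_S_STG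
  have h_HK_S_LAWPM : HK.S_LAWPM := KC.LAWPM_pf 
  have h_KC_S_ZEX : KC.S_ZEX := KC.ZEX_pf h_HK_S_LAWPM
  have h_KC_S_ZLIM : KC.S_ZLIM := KC.ZLIM_pf h_HK_S_LAWPM h_AK_S_SUP
  have h_HK_S_LAWCPM : HK.S_LAWCPM := KC.LAWCPM_pf 
  have h_KC_S_KZS : KC.S_KZS := KC.KZS_pf h_KC_S_ZEX h_KC_S_ZLIM h_HK_S_LAWCPM
  have h_AK_S_NPB : AK.S_NPB := AK.NPB_pf h_AK_S_CYL h_AK_S_MMB
  have h_AK_S_CST : AK.S_CST := AK.CST_pf 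
  have h_AK_S_MC1 : AK.S_MC1 := AK.MC1_pf h_AK_S_CST h_AK_S_PMB h_AK_S_CLP h_AK_S_USC h_AK_S_SUP h_AK_S_NPB
  have h_AK_S_MC2 : AK.S_MC2 := AK.MC2_pf h_AK_S_CST h_AK_S_PMB h_AK_S_USC h_AK_S_SUP h_AK_S_MMB h_AK_S_NPB h_AK_S_MC1
  have h_AK_S_DDC : AK.S_DDC := AK.DDC_pf h_AK_S_USC h_AK_S_NPB h_AK_S_MC2
  have h_AK_S_DDA : AK.S_DDA := AK.DDA_pf h_AK_S_PMB h_AK_S_NPB
  have h_AK_S_PSI : AK.S_PSI := AK.PSI_pf h_AK_S_USC h_AK_S_NPB h_AK_S_MC2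
  have h_AK_S_THB : AK.S_THB := AK.THB_pf h_AK_S_IMG h_AK_S_CYL h_AK_S_PMB h_AK_S_NPB h_AK_S_PSI
  have h_AK_S_ZS2 : AK.S_ZS2 := AK.ZS2_pf h_AK_S_ORB h_AK_S_OMG h_AK_S_SUP h_AK_S_MMB h_AK_S_DDC h_AK_S_DDA h_AK_S_THB
  have h_KC_S_CON : KC.S_CON := KC.CON_pf 
  have h_KC_S_KAPF : KC.S_KAPF := KC.KAPF_pf h_AK_S_SUP h_AK_S_STG h_KC_S_CON
  have h_KC_S_CONF : KC.S_CONF := KC.CONF_pf 
  have h_KC_S_ADM : KC.S_ADM := KC.ADM_pf h_KC_S_CONF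
  have h_KC_S_CYSC : KC.S_CYSC := KC.CYSC_pf h_KC_S_CON h_KC_S_CONF
  have h_KC_S_KTH : KC.S_KTH := KC.KTH_pf h_KC_S_KAPF h_KC_S_ADM h_KC_S_CYSC h_KC_S_CON h_KC_S_CONF h_AK_S_CYL
  have h_AK_S_ENG : AK.S_ENG := AK.ENG_pf h_AK_S_CYL h_AK_S_PMB
  have h_KC_S_OPT : KC.S_OPT := KC.OPT_pf h_AK_S_ENG
  have h_KC_S_FFSC : KC.S_FFSC := KC.FFSC_pf h_KC_S_CYSC
  have h_AK_S_AAB : AK.S_AAB := AK.AAB_pf h_AK_S_PMB h_AK_S_USC h_AK_S_ENG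
  have h_AK_S_DNS : AK.S_DNS := AK.DNS_pf82 h_AK_S_CYL h_AK_S_PMB h_AK_S_SUP
  have h_AK_S_APX : AK.S_APX := AK.APX_pf h_AK_S_ORB h_AK_S_PMB h_AK_S_CLP h_AK_S_SUP h_AK_S_ENG h_AK_S_AAB h_AK_S_DNS
  have h_KC_S_LAWCU : KC.S_LAWCU := KC.LAWCU_pf 
  have h_KC_S_LAWCCU : KC.S_LAWCCU := KC.LAWCCU_pf 
  have h_KC_S_KAA : KC.S_KAA := KC.KAA_pf h_KC_S_OPT h_KC_S_MXSC h_KC_S_FFSC h_AK_S_APX h_HK_S_LAWCPM h_KC_S_LAWCU h_KC_S_LAWCCU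
  have h_AK_S_ZNA : AK.S_ZNA := AK.ZNA_pf h_AK_S_CYL h_AK_S_PMB h_AK_S_CLP h_AK_S_SUP h_AK_S_MMB h_AK_S_NPB h_AK_S_DDC h_AK_S_DDA h_AK_S_THB h_AK_S_ZS2
  have h_AK_S_ZNB : AK.S_ZNB := AK.ZNB_pf h_AK_S_CYL h_AK_S_SUP h_AK_S_STG h_AK_S_MMB h_AK_S_PSI h_AK_S_THB h_AK_S_ZNA
  have h_AK_S_BLK : AK.S_BLK := AK.BLK_pf h_AK_S_CYL
  have h_AK_S_ZNO : AK.S_ZNO := AK.ZNO_pf h_AK_S_ORB h_AK_S_PMB h_AK_S_SUP h_AK_S_MMB h_AK_S_STG h_AK_S_BLK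
  have h_AK_S_ZORN : AK.S_ZORN := AK.ZORN_pf 
  have h_AK_S_GLX : AK.S_GLX := AK.GLX_pf h_AK_S_ZORN h_AK_S_IMG
  have h_AK_S_PRX : AK.S_PRX := AK.PRX_pf h_AK_S_ENG
  have h_AK_S_GL : AK.S_GL := AK.GL_pf h_AK_S_CST h_AK_S_CYL h_AK_S_PMB h_AK_S_USC h_AK_S_CLP h_AK_S_ENG h_AK_S_AAB h_AK_S_PRX
  have h_AK_S_GLM : AK.S_GLM := AK.GLM_pf h_AK_S_IMG h_AK_S_SUP h_AK_S_MMB h_AK_S_GL
  have h_AK_S_GLO : AK.S_GLO := AK.GLO_pf h_AK_S_OMG h_AK_S_ENG h_AK_S_PRX h_AK_S_GLX h_AK_S_GLM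
  have h_AK_S_SEMI : AK.S_SEMI := AK.SEMI_pf 
  have h_AK_S_GLR : AK.S_GLR := AK.GLR_pf h_AK_S_ORB h_AK_S_IMG h_AK_S_SEMI
  have h_AK_S_STP : AK.S_STP := AK.STP_pf h_AK_S_ORB h_AK_S_THB h_AK_S_ZS2 h_AK_S_ZNB h_AK_S_ZNO h_AK_S_AAB h_AK_S_GLX h_AK_S_GLM h_AK_S_GLO h_AK_S_GLR
  have h_KC_S_KRB : KC.S_KRB := KC.KRB_pf h_AK_S_CYL h_AK_S_PMB
  have h_KC_S_MEX : KC.S_MEX := KC.MEX_pf h_AK_S_PMB h_AK_S_CYL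
  have h_KC_S_KBL : KC.S_KBL := KC.KBL_pf h_KC_S_CON h_KC_S_CONF
  have h_KC_S_KZN : KC.S_KZN := KC.KZN_pf h_KC_S_KBL
  have h_KC_S_KSTEP : KC.S_KSTEP := KC.KSTEP_pf h_AK_S_ZS1 h_KC_S_KZS h_AK_S_ZS2 h_AK_S_STG h_KC_S_KTH h_AK_S_THB h_KC_S_KAA h_AK_S_STP h_KC_S_KRB h_KC_S_MEX h_KC_S_KZN
  have h_AK_S_CS1 : AK.S_CS1 := AK.CS1_pf h_AK_S_CYL h_AK_S_SUP
  have h_KC_S_KCI : KC.S_KCI := KC.KCI_pf h_AK_S_CS1 h_KC_S_CON h_KC_S_CONF h_KC_S_CYSC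
  have h_KC_S_EXTC : KC.S_EXTC := KC.EXTC_pf 
  exact KC.MAIN_pf (KC.MAINU_pf h_KC_S_KINIT h_KC_S_KSTEP h_KC_S_KCI h_KC_S_EXTC)

end Pool.Agent.Work.MP_69fea5_lc
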