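import Pool.Agent.Work.MP_69fea5_lc.KC.Stmts

/-!
Block [69fea5 KC], item KZN: zones are recognised.
-/

set_option autoImplicit false

namespace Pool.Agent.Work.MP_69fea5_lc.KC

open Pool.Agent.Work.MP_69fea5_lc.HK (Cl DU Ar ArF ArR Dat Law LawC act near sc Pt oc Mn mr Sol ext)

namespace I_KZN

/-- the middle letter -/
theorem prim_mid (k : ℕ) : Primrec fun w : AK.Wd k => AK.mid w := by
  unfold AK.mid
  exact Primrec.list_getElem?.comp Primrec.id
    (Primrec.nat_div.comp Primrec.list_length (Primrec.const 2))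

theorem rb (S : Set (Set ℕ)) (hS : Cl S) (k : ℕ) (D : Finset (Fin k)) (β : Type) [Primcodable β]
    (v : β → AK.Cube (AK.Ix k)) (hv : sc S v) : Ar S fun b => RbF D (v b) := by
  have hv' : ArR S fun p : β × AK.Ix k × ℤ => (v p.1 p.2.1 p.2.2 : ℝ) := hv
  have key : ∀ (γ : Type) [Primcodable γ] (f : γ → β) (g : γ → AK.Ix k) (h : γ → ℤ),
      Primrec f → Primrec g → Primrec h → ArR S fun c => (v (f c) (g c) (h c) : ℝ) := by
    intro γ _ f g h hf hg hh
    exact ArR.comp hS hv' (g := fun c => (f c, g c, h c)) (hf.pair (hg.pair hh))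
  unfold RbF
  refine Ar.ex hS (R := fun (b : β) (L : ℕ) => ∀ j : ℤ,
    (∀ w : AK.Wd k, Encodable.encode w ≤ L →
      |(v b (.inl w) j : ℝ) - v b (.inl w) 0| < 1 / (L + 1)) →
      ∀ a, a ∉ D → (v b (.inl [a]) j : ℝ) ≤ 0) ?_
  refine Ar.all hS (R := fun (p : β × ℕ) (j : ℤ) =>
    (∀ w : AK.Wd k, Encodable.encode w ≤ p.2 →
      |(v p.1 (.inl w) j : ℝ) - v p.1 (.inl w) 0| < 1 / (p.2 + 1)) →
      ∀ a, a ∉ D → (v p.1 (.inl [a]) j : ℝ) ≤ 0) ?_
  refine Ar.imp hS ?_ ?_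
  · refine Ar.all hS (R := fun (p : (β × ℕ) × ℤ) (w : AK.Wd k) => Encodable.encode w ≤ p.1.2 →
      |(v p.1.1 (.inl w) p.2 : ℝ) - v p.1.1 (.inl w) 0| < 1 / (p.1.2 + 1)) ?_
    refine Ar.imp hS (Ar.prim hS (Primrec.nat_le.comp (Primrec.encode.comp Primrec.snd)
        (Primrec.snd.comp (Primrec.fst.comp Primrec.fst)))) ?_
    have h1 := key (((β × ℕ) × ℤ) × AK.Wd k) (fun q => q.1.1.1) (fun q => .inl q.2)
      (fun q => q.1.2) (Primrec.fst.comp (Primrec.fst.comp Primrec.fst))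
      (Primrec.sumInl.comp Primrec.snd) (Primrec.snd.comp Primrec.fst)
    have h2 := key (((β × ℕ) × ℤ) × AK.Wd k) (fun q => q.1.1.1) (fun q => .inl q.2)
      (fun _ => 0) (Primrec.fst.comp (Primrec.fst.comp Primrec.fst))
      (Primrec.sumInl.comp Primrec.snd) (Primrec.const 0)
    have h3 : ArR S fun q : ((β × ℕ) × ℤ) × AK.Wd k => (1 : ℝ) / (q.1.1.2 + 1) :=
      (ArR.rat hS (ArF.const hS 1) (ArF.of_primrec hS
        (Primrec.snd.comp (Primrec.fst.comp Primrec.fst)))).congr fun q => by simp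
    exact ArR.rlt hS (ArR.absd hS h1 h2 (fun q => (v q.1.1.1 (.inl q.2) q.1.2).2.1)
      (fun q => (v q.1.1.1 (.inl q.2) 0).2.1)) h3 (fun q => abs_nonneg _)
  · refine Ar.all hS (R := fun (p : (β × ℕ) × ℤ) (a : Fin k) => a ∉ D →
      (v p.1.1 (.inl [a]) p.2 : ℝ) ≤ 0) ?_
    refine Ar.imp hS ?_ ?_
    · refine (Ar.eq hS (f := fun q : ((β × ℕ) × ℤ) × Fin k => decide (q.2 ∈ D))
        (g := fun _ => false) ?_ (ArF.const hS false)).congr fun q => ?_
      · exact ArF.of_primrec hS ((Primrec.dom_finite fun a : Fin k => decide (a ∈ D)).comp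
          Primrec.snd)
      · simp
    · refine ArR.rle hS ?_ (ArR.zero hS) (fun _ => le_rfl)
      exact key (((β × ℕ) × ℤ) × Fin k) (fun q => q.1.1.1) (fun q => .inl [q.2])
        (fun q => q.1.2) (Primrec.fst.comp (Primrec.fst.comp Primrec.fst))
        (Primrec.sumInl.comp (Primrec.list_cons.comp Primrec.snd (Primrec.const [])))
        (Primrec.snd.comp Primrec.fst)

end I_KZN

theorem KZN_pf (hKBL : S_KBL) : S_KZN := by
  intro S hS k c m0 D r hc hm β _ v hv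
  have hv' : ArR S fun p : β × AK.Ix k × ℤ => (v p.1 p.2.1 p.2.2 : ℝ) := hv
  refine Ar.and hS ?_ (I_KZN.rb S hS k D β v hv)
  refine Ar.ex hS (R := fun (b : β) (P : AK.Wd k) => AK.Blocked c m0 P ∧ AK.mid P = some r ∧
    (0 : ℝ) < v b (.inr (P, P)) 0) ?_
  refine Ar.and hS ((hKBL S hS k c m0 hc hm).comp hS Primrec.snd) (Ar.and hS ?_ ?_)
  · exact Ar.eq hS (ArF.of_primrec hS ((I_KZN.prim_mid k).comp Primrec.snd))
      (ArF.const hS (some r))
  · refine ArR.rlt hS (ArR.zero hS) ?_ (fun _ => le_rfl)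
    exact ArR.comp hS hv' (g := fun c : β × AK.Wd k => (c.1, .inr (c.2, c.2), (0 : ℤ)))
      (Primrec.fst.pair ((Primrec.sumInr.comp (Primrec.snd.pair Primrec.snd)).pair
        (Primrec.const 0)))

end Pool.Agent.Work.MP_69fea5_lc.KC
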