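import Pool.Agent.Work.MP_69fea5_lc.KC.Stmts

/-!
Block [69fea5 KC], item ZLIM: the base point from finite data.
-/

set_option autoImplicit false

open Filter Topology MeasureTheory

namespace Pool.Agent.Work.MP_69fea5_lc.KC

open Pool.Agent.Work.MP_69fea5_lc.HK (Cl DU Ar ArF ArR Dat Law LawC act near sc Pt oc Mn mr Sol ext)

namespace I_ZLIM

/-- cylinders are open -/
theorem isOpen_cyl {k : ℕ} (P : HK.C k) : IsOpen (HK.cyl P : Set (HK.X k)) := by
  have e : (HK.cyl P : Set (HK.X k)) = ⋂ p ∈ P.toFinset, {z | z p.1 = p.2} := by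
    ext z
    simp [HK.cyl]
  rw [e]
  refine isOpen_biInter_finset fun p _ => ?_
  have h := (isOpen_discrete ({p.2} : Set (Fin k))).preimage
    (continuous_apply (A := fun _ : ℤ => Fin k) p.1)
  exact h

/-- the constraints of a window -/
theorem mem_wc {k : ℕ} (a : HK.X k) (x : ℤ) (n : ℕ) (j : ℤ) (hj : |j| ≤ (n : ℤ)) :
    (x + j, a j) ∈ HK.wc a x n := by
  unfold HK.wc
  rw [List.mem_map]
  have h := abs_le.mp hj
  refine ⟨(j + n).toNat, ?_, ?_⟩
  · rw [List.mem_range]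
    omega
  · have h1 : (((j + n).toNat : ℕ) : ℤ) = j + n := Int.toNat_of_nonneg (by omega)
    rw [h1]
    simp

end I_ZLIM

theorem ZLIM_pf (hPM : HK.S_LAWPM) (hSUP : AK.S_SUP) : S_ZLIM := by
  intro k c m0 G x W z hG hd hz O hO V hV L0
  have := hPM k
  obtain ⟨M, hM⟩ := Law.near_basis (α := HK.X k) z O hO
  obtain ⟨M', hM'⟩ := Law.near_basis (α := HK.PM k) m0 V hV
  -- a good index
  have h1 : ∀ᶠ L in (G : Filter ℕ), max (max M M') L0 ≤ L := hG (eventually_ge_atTop _)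
  have h2 : ∀ᶠ L in (G : Filter ℕ), ∀ t ∈ Finset.Icc (-(M : ℤ)) M, ∀ a, (t, a) ∈ W L → z t = a :=
    (Filter.eventually_all_finset _).mpr fun t _ => hz t
  obtain ⟨L, hL, hW⟩ := (h1.and h2).exists
  obtain ⟨hxL, hnear, hcov, hpos⟩ := hd L
  have hLM : M ≤ L := le_trans (le_trans (le_max_left _ _) (le_max_left _ _)) hL
  have hLM' : M' ≤ L := le_trans (le_trans (le_max_right _ _) (le_max_left _ _)) hL
  have hL0 : L0 ≤ L := le_trans (le_max_right _ _) hL
  refine ⟨x L, hL0.trans hxL, ?_, ?_⟩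
  · apply hM'
    apply Law.near_symm
    exact Law.near_mono M' L _ _ hLM' hnear
  · have hpos' : 0 < m0 (HK.cyl (W L ++ HK.wc (AK.sh (x L : ℤ) c) (x L) L)) := by
      have h3 : (0 : ℝ) < ((m0 (HK.cyl (W L ++ HK.wc (AK.sh (x L : ℤ) c) (x L) L)) : NNReal) : ℝ) :=
        hpos
      exact_mod_cast h3
    obtain ⟨g, hg, hgs⟩ := (hSUP k m0).2.2.2.2.2.1 _ (I_ZLIM.isOpen_cyl _) hpos'
    have hg' : ∀ p ∈ W L ++ HK.wc (AK.sh (x L : ℤ) c) (x L) L, g p.1 = p.2 := hg
    refine ⟨g, ⟨hgs, hM g ?_⟩, ?_⟩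
    · intro t ht
      obtain ⟨a, ha⟩ := hcov t (ht.trans (by exact_mod_cast hLM))
      have h3 : z t = a := hW t (by rw [Finset.mem_Icc]; exact abs_le.mp ht) a ha
      have h4 : g t = a := hg' (t, a) (List.mem_append_left _ ha)
      rw [h3, h4]
    · intro j hj
      have h3 := hg' _ (List.mem_append_right _ (I_ZLIM.mem_wc (AK.sh (x L : ℤ) c) (x L : ℤ) L j
        (hj.trans (by exact_mod_cast hL0))))
      have h4 : AK.sh (x L : ℤ) c j = c (j + x L) := rfl
      rw [add_comm (x L : ℤ) j] at h3 ⊢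
      rw [← h4]
      exact h3

end Pool.Agent.Work.MP_69fea5_lc.KC
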