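import Pool.Agent.Work.MP_69fea5_lc.AK.Stmts
import Pool.Agent.Work.MP_69fea5_lc.HK.Inst
import Pool.Agent.Work.MP_69fea5_lc.HK.I_URP
import Pool.Agent.Work.MP_69fea5_lc.HK.Real

/-!
Block [69fea5 KC]: the coded part on top of the classical part `AK`: definitions and bridges.
-/

set_option autoImplicit false
set_option linter.unusedSectionVars false

open Filter Topology MeasureTheory

namespace Pool.Agent.Work.MP_69fea5_lc.KC

open Pool.Agent.Work.MP_69fea5_lc.HK (Cl DU Ar ArF ArR Dat Law LawC act near sc Pt oc Mn mr)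

/-- the cube is a coded dynamical space -/
noncomputable instance datCube {I : Type} [Primcodable I] : Dat (AK.Cube I) where
  act n v := AK.sh n v
  near L v v' := ∀ i : I, Encodable.encode i ≤ L → ∀ t : ℤ, |t| ≤ (L : ℤ) →
    |(v i t : ℝ) - v' i t| < 1 / (L + 1)
  sc S β _ w := ArR S (fun p : β × I × ℤ => (w p.1 p.2.1 p.2.2 : ℝ))

section bridge

variable {k : ℕ} {I : Type} [Primcodable I]

theorem act_om (n : ℤ) (z : AK.Om k) : (act n (show HK.X k from z)) = AK.sh n z := rfl
theorem act_pm (n : ℤ) (m : AK.PM k) : (act n (show HK.PM k from m)) = AK.sh n m := rfl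
theorem act_cube (n : ℤ) (v : AK.Cube I) : act n v = AK.sh n v := rfl

/-- the action of the coded structure is the action of `AK` -/
class Agree (α : Type) [TopologicalSpace α] [Dat α] [AK.Sys α] : Prop where
  eq : ∀ (n : ℤ) (x : α), act n x = AK.sh n x

instance : Agree (AK.Om k) := ⟨fun _ _ => rfl⟩
instance : Agree (AK.PM k) := ⟨fun _ _ => rfl⟩
instance : Agree (AK.Cube I) := ⟨fun _ _ => rfl⟩

instance {α β : Type} [TopologicalSpace α] [Dat α] [AK.Sys α] [TopologicalSpace β] [Dat β]
    [AK.Sys β] [Agree α] [Agree β] : Agree (α × β) :=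
  ⟨fun n x => Prod.ext (Agree.eq n x.1) (Agree.eq n x.2)⟩

theorem oc_eq {α : Type} [TopologicalSpace α] [Dat α] [AK.Sys α] [Agree α] (w : α) :
    oc w = AK.orb w := by
  unfold oc AK.orb
  congr 2
  funext n
  exact Agree.eq n w

theorem minSet_of_Mn {α : Type} [TopologicalSpace α] [Dat α] [Law α] [AK.Sys α] [Agree α] {w : α}
    (h : Mn w) : AK.MinSet (AK.orb w) where
  closed := isClosed_closure
  ne := ⟨_, by rw [← oc_eq]; exact HK.mem_oc_self w⟩
  inv n x hx := by
    rw [← oc_eq] at hx ⊢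
    rw [← Agree.eq]
    exact HK.oc_inv hx n
  min L hL hne hi hsub := by
    apply hsub.antisymm
    obtain ⟨x, hx⟩ := hne
    have hx' : x ∈ oc w := by rw [oc_eq]; exact hsub hx
    rw [← oc_eq, ← h.oc_eq hx']
    exact HK.oc_subset hL (fun n y hy => by rw [Agree.eq]; exact hi n y hy) hx

end bridge

end Pool.Agent.Work.MP_69fea5_lc.KC
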